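import Mathlib

/-!
# [H39 TU DEG] the degree of a function bounds the growth of a graded system of spaces

`F ⊆ E` fields, `L n` finite dimensional `F`-subspaces of `E` with `L m L n ⊆ L (m + n)` such that every element of
`E` is a quotient of elements of some `L n`.  If `dim L n ≤ γ n` for large `n` and `z = b / a` with `a, b ∈ L N` is
transcendental over `F` then `[E : F(z)] ≤ γ N`.
-/

set_option autoImplicit false

namespace Pool.Agent.H39.TU

open IntermediateField

variable {F E : Type} [Field F] [Field E] [Algebra F E]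

/-- a common denominator -/
theorem common_den (L : ℕ → Submodule F E) (one : (1 : E) ∈ L 0)
    (mul : ∀ {m n : ℕ} {a b : E}, a ∈ L m → b ∈ L n → a * b ∈ L (m + n))
    (frac : ∀ f : E, ∃ n, ∃ a ∈ L n, ∃ s ∈ L n, s ≠ 0 ∧ f * s = a) {d : ℕ} (e : Fin d → E) :
    ∃ c, ∃ s ∈ L c, s ≠ 0 ∧ ∀ i, e i * s ∈ L c := by
  induction d with
  | zero => exact ⟨0, 1, one, one_ne_zero, fun i => i.elim0⟩
  | succ d ih =>
    obtain ⟨c, s, hs, hs0, h⟩ := ih (fun i => e i.castSucc)
    obtain ⟨n, a, ha, t, ht, ht0, hf⟩ := frac (e (Fin.last d))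
    refine ⟨c + n, s * t, mul hs ht, mul_ne_zero hs0 ht0, fun i => ?_⟩
    refine Fin.lastCases ?_ (fun i => ?_) i
    · have h1 : e (Fin.last d) * (s * t) = s * a := by rw [← hf]; ring
      rw [h1]
      exact mul hs ha
    · have h1 : e i.castSucc * (s * t) = (e i.castSucc * s) * t := by ring
      rw [h1]
      exact mul (h i) ht

theorem mem_pow (L : ℕ → Submodule F E) (one : (1 : E) ∈ L 0)
    (mul : ∀ {m n : ℕ} {a b : E}, a ∈ L m → b ∈ L n → a * b ∈ L (m + n)) {N : ℕ} {a : E}
    (ha : a ∈ L N) (i : ℕ) : a ^ i ∈ L (N * i) := by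
  induction i with
  | zero => simpa using one
  | succ i ih =>
    rw [pow_succ, Nat.mul_succ]
    exact mul ih ha

theorem deg_bound (L : ℕ → Submodule F E) (one : (1 : E) ∈ L 0)
    (mul : ∀ {m n : ℕ} {a b : E}, a ∈ L m → b ∈ L n → a * b ∈ L (m + n))
    (frac : ∀ f : E, ∃ n, ∃ a ∈ L n, ∃ s ∈ L n, s ≠ 0 ∧ f * s = a)
    (fin : ∀ n, FiniteDimensional F (L n))
    (γ n₀ : ℕ) (hγ : ∀ n, n₀ ≤ n → Module.finrank F (L n) ≤ γ * n)
    (N : ℕ) (a b : E) (ha : a ∈ L N) (hb : b ∈ L N) (ha0 : a ≠ 0)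
    (htr : Transcendental F (b / a)) {d : ℕ} (e : Fin d → E)
    (he : LinearIndependent F⟮b / a⟯ e) : d ≤ γ * N := by
  obtain ⟨c, s, hs, hs0, hc⟩ := common_den L one mul frac e
  by_contra hlt
  rw [not_le] at hlt
  -- independence
  set z := b / a with hz
  have hzm : z ∈ F⟮z⟯ := mem_adjoin_simple_self F z
  have hpow : LinearIndependent F (fun i : ℕ => (⟨z, hzm⟩ : F⟮z⟯) ^ i) := by
    have h0 : LinearIndependent F (fun i : ℕ => (Polynomial.X : Polynomial F) ^ i) := by
      have h1 := (Polynomial.basisMonomials F).linearIndependent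
      simpa [Polynomial.coe_basisMonomials, ← Polynomial.X_pow_eq_monomial] using h1
    have h1 : LinearIndependent F (fun i : ℕ => z ^ i) := by
      have h2 := h0.map' (Polynomial.aeval z).toLinearMap (by
        rw [LinearMap.ker_eq_bot]
        exact transcendental_iff_injective.1 htr)
      have h3 : (fun i : ℕ => z ^ i) =
          (⇑(Polynomial.aeval z : Polynomial F →ₐ[F] E).toLinearMap ∘
            fun i => (Polynomial.X : Polynomial F) ^ i) := by
        funext i
        simp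
      rw [h3]
      exact h2
    refine LinearIndependent.of_comp (F⟮z⟯.val.toLinearMap) ?_
    exact h1
  have hind : ∀ n : ℕ, LinearIndependent F (fun p : Fin (n + 1) × Fin d =>
      a ^ (n - (p.1 : ℕ)) * b ^ (p.1 : ℕ) * (e p.2 * s)) := by
    intro n
    have h1 : LinearIndependent F (fun i : Fin (n + 1) => (⟨z, hzm⟩ : F⟮z⟯) ^ (i : ℕ)) :=
      hpow.comp _ (fun i j h => Fin.ext h)
    have h2 := linearIndependent_smul h1 he
    have h3 : LinearIndependent F (fun p : Fin (n + 1) × Fin d =>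
        (LinearMap.mulLeft F (a ^ n * s)) ((⟨z, hzm⟩ : F⟮z⟯) ^ (p.1 : ℕ) • e p.2)) := by
      refine h2.map' _ ?_
      rw [LinearMap.ker_eq_bot]
      intro u v huv
      rw [LinearMap.mulLeft_apply, LinearMap.mulLeft_apply] at huv
      exact mul_left_cancel₀ (mul_ne_zero (pow_ne_zero n ha0) hs0) huv
    convert h3 using 1
    funext p
    rw [LinearMap.mulLeft_apply, IntermediateField.smul_def]
    have h4 : (((⟨z, hzm⟩ : F⟮z⟯) ^ (p.1 : ℕ) : F⟮z⟯) : E) = z ^ (p.1 : ℕ) := rfl
    rw [h4, smul_eq_mul, hz, div_pow]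
    have h5 : a ^ n = a ^ (n - (p.1 : ℕ)) * a ^ (p.1 : ℕ) := by
      rw [← pow_add, Nat.sub_add_cancel (Nat.lt_succ_iff.1 p.1.2)]
    rw [h5]
    field_simp
  have hmem : ∀ n : ℕ, ∀ p : Fin (n + 1) × Fin d,
      a ^ (n - (p.1 : ℕ)) * b ^ (p.1 : ℕ) * (e p.2 * s) ∈ L (N * n + c) := by
    intro n p
    have h1 := mul (mem_pow L one mul ha (n - (p.1 : ℕ))) (mem_pow L one mul hb (p.1 : ℕ))
    rw [← Nat.mul_add, Nat.sub_add_cancel (Nat.lt_succ_iff.1 p.1.2)] at h1
    exact mul h1 (hc p.2)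
  have hle : ∀ n, n₀ ≤ N * n + c → (n + 1) * d ≤ γ * (N * n + c) := by
    intro n hn
    have := fin (N * n + c)
    refine le_trans ?_ (hγ _ hn)
    have h1 : LinearIndependent F (fun p : Fin (n + 1) × Fin d =>
        (⟨_, hmem n p⟩ : L (N * n + c))) := by
      refine LinearIndependent.of_comp (L (N * n + c)).subtype ?_
      exact hind n
    have h2 := h1.fintype_card_le_finrank
    simpa using h2
  rcases Nat.eq_zero_or_pos N with hN | hN
  · -- N = 0
    subst hN
    have h1 : ∀ n, (n + 1) * d ≤ Module.finrank F (L c) := by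
      intro n
      have := fin (0 * n + c)
      have h1 : LinearIndependent F (fun p : Fin (n + 1) × Fin d =>
          (⟨_, hmem n p⟩ : L (0 * n + c))) := by
        refine LinearIndependent.of_comp (L (0 * n + c)).subtype ?_
        exact hind n
      have h2 := h1.fintype_card_le_finrank
      have h3 : 0 * n + c = c := by omega
      rw [← h3]
      simpa using h2
    have h2 := h1 (Module.finrank F (L c))
    have h3 : 1 ≤ d := by omega
    nlinarith
  · have h1 := hle (n₀ + γ * c) (by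
      have h2 : 1 * (n₀ + γ * c) ≤ N * (n₀ + γ * c) := Nat.mul_le_mul_right _ hN
      omega)
    have h2 : (n₀ + γ * c + 1) * (γ * N + 1) ≤ (n₀ + γ * c + 1) * d :=
      Nat.mul_le_mul_left _ hlt
    have h3 : (n₀ + γ * c + 1) * (γ * N + 1) ≤ γ * (N * (n₀ + γ * c) + c) := h2.trans h1
    nlinarith

end Pool.Agent.H39.TU
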