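import Pool.Agent.H54.RV.A1

/-!
# [H39 TU RAM] the ramification index is at most the degree

`v` a place of `E` over `F`, `v.ord z = e ≥ 1`, `v.ord t = 1`: then `1, t, .., t ^ (e - 1)` are linearly independent
over `F(z)`, because the orders of the elements of `F(z)` are multiples of `e`.
-/

set_option autoImplicit false

namespace Pool.Agent.H39.TU

open IntermediateField Pool.Agent.H54.RV

variable {F E : Type} [Field F] [Field E] [Algebra F E]

theorem ord_powN (p : Place F E) (a : E) (ha : a ≠ 0) (n : ℕ) : p.ord (a ^ n) = n * p.ord a := by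
  induction n with
  | zero => simp [ord_one]
  | succ n ih =>
    rw [pow_succ, ord_mul p _ _ (pow_ne_zero n ha) ha, ih]
    push_cast
    ring

theorem ord_zpow (p : Place F E) (a : E) (ha : a ≠ 0) (n : ℤ) : p.ord (a ^ n) = n * p.ord a := by
  obtain ⟨m, rfl | rfl⟩ := n.eq_nat_or_neg
  · rw [zpow_natCast]
    exact ord_powN p a ha m
  · rw [zpow_neg, ord_inv, zpow_natCast, ord_powN p a ha m]
    ring

theorem ord_neg (p : Place F E) (a : E) : p.ord (-a) = p.ord a := by
  by_cases ha : a = 0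
  · rw [ha, neg_zero]
  · have h1 : p.ord (-1 : E) = 0 := by
      rw [ord_eq_zero p _ (neg_ne_zero.2 one_ne_zero)]
      have h2 : (-1 : E) ∈ p.R := neg_mem p.R.one_mem
      refine ⟨h2, ?_⟩
      rwa [inv_neg, inv_one]
    rw [neg_eq_neg_one_mul, ord_mul p _ _ (neg_ne_zero.2 one_ne_zero) ha, h1, zero_add]

theorem ord_add_ge (p : Place F E) (a b : E) (n : ℤ) (ha : a ≠ 0 → n ≤ p.ord a)
    (hb : b ≠ 0 → n ≤ p.ord b) (hab : a + b ≠ 0) : n ≤ p.ord (a + b) := by
  obtain ⟨t, ht0, ht⟩ := ord_unif p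
  have htn : t ^ (-n) ≠ 0 := zpow_ne_zero _ ht0
  have key : ∀ c : E, (c ≠ 0 → n ≤ p.ord c) → c * t ^ (-n) ∈ p.R := by
    intro c hc
    by_cases h0 : c = 0
    · rw [h0, zero_mul]
      exact p.R.zero_mem
    · rw [← ord_nonneg p _ (mul_ne_zero h0 htn), ord_mul p _ _ h0 htn, ord_zpow p t ht0, ht]
      have := hc h0
      omega
  have h1 := add_mem (key a ha) (key b hb)
  rw [← add_mul] at h1
  rw [← ord_nonneg p _ (mul_ne_zero hab htn), ord_mul p _ _ hab htn, ord_zpow p t ht0, ht] at h1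
  omega

theorem ord_add_eq (p : Place F E) (a b : E) (ha : a ≠ 0) (h : b ≠ 0 → p.ord a < p.ord b) :
    a + b ≠ 0 ∧ p.ord (a + b) = p.ord a := by
  by_cases hb : b = 0
  · subst hb
    rw [add_zero]
    exact ⟨ha, rfl⟩
  have h1 := h hb
  have h2 : a + b ≠ 0 := by
    intro h2
    have h3 : a = -b := eq_neg_of_add_eq_zero_left h2
    rw [h3, ord_neg] at h1
    exact lt_irrefl _ h1
  refine ⟨h2, le_antisymm ?_ (ord_add_ge p a b _ (fun _ => le_rfl) (fun _ => h1.le) h2)⟩
  by_contra h3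
  rw [not_le] at h3
  have h4 := ord_add_ge p (a + b) (-b) (p.ord a + 1) (fun _ => by omega)
    (fun _ => by rw [ord_neg]; omega) (by rw [add_neg_cancel_right]; exact ha)
  rw [add_neg_cancel_right] at h4
  omega

theorem ord_base (p : Place F E) (c : F) (hc : c ≠ 0) : p.ord (algebraMap F E c) = 0 := by
  have h0 : algebraMap F E c ≠ 0 := by simpa using hc
  rw [ord_eq_zero p _ h0, ← map_inv₀]
  exact ⟨p.mem c, p.mem c⁻¹⟩

/-- a polynomial with nonzero constant term takes a value of order `0` at an element of positive order -/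
theorem ord_poly (p : Place F E) (z : E) (hz : z ≠ 0 → 0 < p.ord z) (q : Polynomial F)
    (hq : q.coeff 0 ≠ 0) : Polynomial.aeval z q ≠ 0 ∧ p.ord (Polynomial.aeval z q) = 0 := by
  have h1 : Polynomial.aeval z q =
      algebraMap F E (q.coeff 0) + z * Polynomial.aeval z q.divX := by
    conv_lhs => rw [← Polynomial.divX_mul_X_add q]
    rw [map_add, map_mul, Polynomial.aeval_X, Polynomial.aeval_C]
    ring
  have hreg : Polynomial.aeval z q.divX ∈ p.R := by
    have hzR : z ∈ p.R := by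
      by_cases h0 : z = 0
      · rw [h0]; exact p.R.zero_mem
      · exact (ord_nonneg p z h0).1 (hz h0).le
    rw [Polynomial.aeval_eq_sum_range]
    refine sum_mem fun i _ => ?_
    rw [Algebra.smul_def]
    exact mul_mem (p.mem _) (pow_mem hzR i)
  have hc0 : algebraMap F E (q.coeff 0) ≠ 0 := by simpa using hq
  have h2 := ord_add_eq p (algebraMap F E (q.coeff 0)) (z * Polynomial.aeval z q.divX) hc0 (by
    intro h3
    rw [ord_base p _ hq]
    have hz0 : z ≠ 0 := fun h => h3 (by rw [h, zero_mul])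
    have hd0 : Polynomial.aeval z q.divX ≠ 0 := fun h => h3 (by rw [h, mul_zero])
    rw [ord_mul p _ _ hz0 hd0]
    have := hz hz0
    have := (ord_nonneg p _ hd0).2 hreg
    omega)
  rw [← h1, ord_base p _ hq] at h2
  exact h2

theorem ord_polyX (p : Place F E) (z : E) (hz0 : z ≠ 0) (hz : 0 < p.ord z) (q : Polynomial F)
    (hq : q ≠ 0) : Polynomial.aeval z q ≠ 0 ∧ p.ord z ∣ p.ord (Polynomial.aeval z q) := by
  obtain ⟨g, hg, hd⟩ := Polynomial.exists_eq_pow_rootMultiplicity_mul_and_not_dvd q hq 0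
  rw [Polynomial.C_0, sub_zero] at hg hd
  have hg0 : g.coeff 0 ≠ 0 := by
    intro h
    exact hd (Polynomial.X_dvd_iff.2 h)
  obtain ⟨h1, h2⟩ := ord_poly p z (fun _ => hz) g hg0
  rw [hg, map_mul, map_pow, Polynomial.aeval_X]
  refine ⟨mul_ne_zero (pow_ne_zero _ hz0) h1, ?_⟩
  rw [ord_mul p _ _ (pow_ne_zero _ hz0) h1, h2, add_zero, ord_powN p z hz0]
  exact Dvd.intro_left _ rfl

theorem ord_dvd (p : Place F E) (z : E) (hz0 : z ≠ 0) (hz : 0 < p.ord z) (x : F⟮z⟯)
    (hx : (x : E) ≠ 0) : p.ord z ∣ p.ord (x : E) := by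
  obtain ⟨r, s, h⟩ := (IntermediateField.mem_adjoin_simple_iff F (x : E)).1 x.2
  have hr : r ≠ 0 := by
    rintro rfl
    rw [map_zero, zero_div] at h
    exact hx h
  have hs : s ≠ 0 := by
    rintro rfl
    rw [map_zero, div_zero] at h
    exact hx h
  obtain ⟨h1, h2⟩ := ord_polyX p z hz0 hz r hr
  obtain ⟨h3, h4⟩ := ord_polyX p z hz0 hz s hs
  rw [h, div_eq_mul_inv, ord_mul p _ _ h1 (inv_ne_zero h3), ord_inv]
  exact dvd_add h2 ((dvd_neg).2 h4)

/-- a finite sum of elements with different orders: it is `0` only if all terms are `0` -/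
theorem sum_ne {ι : Type} (p : Place F E) (s : Finset ι) (f : ι → E)
    (hf : ∀ i ∈ s, ∀ j ∈ s, f i ≠ 0 → f j ≠ 0 → p.ord (f i) = p.ord (f j) → i = j)
    (h0 : ∑ i ∈ s, f i = 0) : ∀ i ∈ s, f i = 0 := by
  classical
  by_contra hne
  push Not at hne
  obtain ⟨i₀, hi₀, hi₀'⟩ := hne
  -- choose the term of least order
  let T := s.filter (fun i => f i ≠ 0)
  have hT : T.Nonempty := ⟨i₀, Finset.mem_filter.2 ⟨hi₀, hi₀'⟩⟩
  obtain ⟨i, hi, hmin⟩ := T.exists_min_image (fun i => p.ord (f i)) hT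
  obtain ⟨his, hi0⟩ := Finset.mem_filter.1 hi
  have h1 : f i + ∑ j ∈ s.erase i, f j = 0 := by
    rw [Finset.add_sum_erase s f his, h0]
  have key : ∀ u : Finset ι, (∀ j ∈ u, j ∈ s ∧ j ≠ i) → (∑ j ∈ u, f j ≠ 0 →
      p.ord (f i) + 1 ≤ p.ord (∑ j ∈ u, f j)) := by
    intro u
    induction u using Finset.induction_on with
    | empty => intro _ h; exact absurd Finset.sum_empty h
    | insert j u hj ih =>
      intro hu h
      rw [Finset.sum_insert hj] at h ⊢
      refine ord_add_ge p _ _ _ (fun hj0 => ?_) (fun h2 => ih (fun l hl => hu l (Finset.mem_insert_of_mem hl)) h2) h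
      obtain ⟨hjs, hji⟩ := hu j (Finset.mem_insert_self j u)
      have h3 := hmin j (Finset.mem_filter.2 ⟨hjs, hj0⟩)
      have h4 : p.ord (f i) ≠ p.ord (f j) := fun h5 => hji (hf j hjs i his hj0 hi0 h5.symm)
      have h3' : p.ord (f i) ≤ p.ord (f j) := h3
      omega
  have h2 := ord_add_eq p (f i) (∑ j ∈ s.erase i, f j) hi0 (fun h3 => by
    have := key (s.erase i) (fun j hj => ⟨Finset.mem_of_mem_erase hj, Finset.ne_of_mem_erase hj⟩) h3
    omega)
  exact h2.1 h1

theorem ram_indep (p : Place F E) (z t : E) (e : ℕ) (he : 1 ≤ e) (hz0 : z ≠ 0) (hz : p.ord z = e)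
    (ht0 : t ≠ 0) (ht : p.ord t = 1) : LinearIndependent F⟮z⟯ (fun i : Fin e => t ^ (i : ℕ)) := by
  rw [Fintype.linearIndependent_iff]
  intro g hg
  have hzp : 0 < p.ord z := by rw [hz]; exact_mod_cast he
  have h1 : ∀ i ∈ (Finset.univ : Finset (Fin e)), (g i : E) * t ^ (i : ℕ) = 0 := by
    refine sum_ne p Finset.univ (fun i => (g i : E) * t ^ (i : ℕ)) ?_ hg
    intro i _ j _ hi hj hij
    have hgi : (g i : E) ≠ 0 := left_ne_zero_of_mul hi
    have hgj : (g j : E) ≠ 0 := left_ne_zero_of_mul hj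
    rw [ord_mul p _ _ hgi (pow_ne_zero _ ht0), ord_mul p _ _ hgj (pow_ne_zero _ ht0),
      ord_powN p t ht0, ord_powN p t ht0, ht] at hij
    obtain ⟨a, ha⟩ := ord_dvd p z hz0 hzp (g i) hgi
    obtain ⟨b, hb⟩ := ord_dvd p z hz0 hzp (g j) hgj
    rw [ha, hb, hz] at hij
    have h2 : (e : ℤ) * (a - b) = (j : ℕ) - (i : ℕ) := by linarith
    have hi' := i.2
    have hj' := j.2
    have h3 : a - b = 0 := by
      by_contra h4
      rcases lt_or_gt_of_ne h4 with h5 | h5
      · have : (e : ℤ) * (a - b) ≤ e * (-1) := by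
          apply mul_le_mul_of_nonneg_left _ (by positivity)
          omega
        omega
      · have : (e : ℤ) * 1 ≤ e * (a - b) := by
          apply mul_le_mul_of_nonneg_left _ (by positivity)
          omega
        omega
    rw [h3, mul_zero] at h2
    apply Fin.ext
    omega
  intro i
  have h2 := h1 i (Finset.mem_univ i)
  rcases mul_eq_zero.1 h2 with h3 | h3
  · exact_mod_cast h3
  · exact absurd h3 (pow_ne_zero _ ht0)

end Pool.Agent.H39.TU
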