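import Pool.Agent.H39.TU.CB
import Pool.Agent.H24.TU.CA
import Pool.Agent.H24.TU.RFG

/-!
# [H39 TU THII] Theorem U, Theorem II

`X` a factorial projective threefold with smooth points, `D` ample, `F` a field between `k` and `K` with
`trdeg K / F = 1`, such that the `F`-spaces spanned by the sections of `n D` have dimension at most `γ n` for large `n`.
If (*1) holds for `D` and `D` has more than `(γ + 4).choose 3` sections, then `R_F (D) ≤ γ` and there is an effective
divisor `M`, not trivial, with `R_F (M) = 0`.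
-/

set_option autoImplicit false

namespace Pool.Agent.H39.TU

open Pool.Agent.H54.RV Pool.Agent.H83.TU Pool.Agent.H24.TU

variable {k K : Type} [Field k] [Field K] [Algebra k K] {X : Mod k K}

/-- **Theorem II** -/
theorem theoremII [IsAlgClosed k] [CharZero k] (h : Hyp X) (hGF : GF X) (hUN : UN X) (hUF : UF X)
    (hsm : ∀ x, SmP X x) (D : Cart X) (hD : Ample D)
    (hst : ∀ (Y : Type) [Field Y] [Algebra k Y], StarOne k Y K (secL D 1))
    (F : IntermediateField k K) (hF : Algebra.trdeg F K = 1) (γ n₀ : ℕ)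
    (hγ : ∀ n, n₀ ≤ n → Module.finrank F (Submodule.span F (secL D n : Set K)) ≤ γ * n)
    (hh : (γ + 4).choose 3 < h0 D 1) :
    RF h.var h.gen F D ≤ γ ∧
      ∃ M : Cart X, Effective M ∧ ¬ Effective M⁻¹ ∧ RF h.var h.gen F M = 0 := by
  refine ⟨rf_le h hGF hUN hUF D hD F hF γ n₀ hγ, caseA h F hF fun p => ?_⟩
  by_contra hcon
  have hξ : Algebra.trdeg k (X.kap (cenK h.var h.gen (down p))) ≤ 1 := by
    have h1 : Algebra.trdeg k (X.kap (cenK h.var h.gen (down p))) < 2 := not_le.1 hcon
    have h2 : Algebra.trdeg k (X.kap (cenK h.var h.gen (down p))) < Cardinal.aleph0 :=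
      h1.trans (by exact_mod_cast Cardinal.natCast_lt_aleph0 (n := 2))
    obtain ⟨n, hn⟩ := Cardinal.lt_aleph0.1 h2
    rw [hn] at h1 ⊢
    have h3 : n < 2 := by exact_mod_cast h1
    have h4 : n ≤ 1 := by omega
    exact_mod_cast h4
  have : Module.Finite F (IsLocalRing.ResidueField p.R) :=
    Module.finite_of_finrank_pos (deg_pos hF (F_fg h.var h.gen F) p)
  exact caseB h D hD (hGF.1 D) (frac_sec h hUF D hD) F p γ n₀ hγ hh hξ (hsm _) (hst _)

end Pool.Agent.H39.TU
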