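import Mathlib

/-!
# [H39 TU GRW] Theorem U, case B: growth after an extension of the base field

`F ⊆ K` fields, `F → κ` an extension, `i : K → E`, `a : κ → E` field homomorphisms which agree on `F`.  For an
`F`-subspace `W` of `K` the `κ`-subspace of `E` spanned by `i W` has at most the dimension of `W`.

PROOF of `span_le`.  `E` is a `κ`-module by `a`.  Let `b` be an `F`-basis of `W` (`Module.finBasis`).  Every `i w`, `w ∈ W`, is
`∑ a (algebraMap F κ c_j) * i (b_j)`, so the `κ`-span of `i W` is spanned by the `i (b_j)`: `finrank_span_le_card` /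
`finrank_range_le_card`.
-/

set_option autoImplicit false

namespace Pool.Agent.H39.TU

theorem span_le {F K κ E : Type} [Field F] [Field K] [Field κ] [Field E] [Algebra F K] [Algebra F κ]
    [Algebra κ E] (i : K →+* E)
    (h : ∀ c : F, algebraMap κ E (algebraMap F κ c) = i (algebraMap F K c))
    (W : Submodule F K) (hW : FiniteDimensional F W) :
    FiniteDimensional κ (Submodule.span κ (i '' (W : Set K))) ∧
      Module.finrank κ (Submodule.span κ (i '' (W : Set K))) ≤ Module.finrank F W := by
  set b := Module.finBasis F W with hb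
  have hspan : Submodule.span κ (i '' (W : Set K)) =
      Submodule.span κ (Set.range fun j => i (b j : K)) := by
    refine le_antisymm ?_ (Submodule.span_mono ?_)
    · rw [Submodule.span_le]
      rintro _ ⟨w, hw, rfl⟩
      have h1 : w = ∑ j, b.repr ⟨w, hw⟩ j • (b j : K) := by
        have h2 : ((∑ j, b.repr ⟨w, hw⟩ j • b j : W) : K) = w :=
          congrArg (Subtype.val : W → K) (b.sum_repr ⟨w, hw⟩)
        refine h2.symm.trans ?_
        rw [Submodule.coe_sum]
        rfl
      rw [h1, map_sum]
      refine Submodule.sum_mem _ fun j _ => ?_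
      rw [Algebra.smul_def, map_mul, ← h, ← Algebra.smul_def]
      exact Submodule.smul_mem _ _ (Submodule.subset_span ⟨j, rfl⟩)
    · rintro _ ⟨j, rfl⟩
      exact ⟨b j, (b j).2, rfl⟩
  have hfin : FiniteDimensional κ (Submodule.span κ (Set.range fun j => i (b j : K))) :=
    FiniteDimensional.span_of_finite κ (Set.finite_range _)
  rw [hspan]
  refine ⟨hfin, ?_⟩
  have h3 := finrank_range_le_card (R := κ) (fun j => i (b j : K))
  unfold Set.finrank at h3
  rw [Fintype.card_fin] at h3
  exact h3

end Pool.Agent.H39.TU
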