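import Pool.Agent.H39.TU.DEG
import Pool.Agent.H39.TU.RAM
import Pool.Agent.H39.TU.GRW

/-!
# [H39 TU CB1] Theorem U, case B: the order of a function at a place of degree one is bounded by the growth
-/

set_option autoImplicit false

namespace Pool.Agent.H39.TU

open IntermediateField Pool.Agent.H54.RV

theorem trans_of_ord {F E : Type} [Field F] [Field E] [Algebra F E] (w : Place F E) (z : E) (hz0 : z ≠ 0)
    (hz : 0 < w.ord z) : Transcendental F z := by
  intro halg
  have hint : IsIntegral F z := halg.isIntegral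
  have h1 := ord_poly w z (fun _ => hz) (minpoly F z) (minpoly.coeff_zero_ne_zero hint hz0)
  exact h1.1 (minpoly.aeval F z)

variable {F K κ E : Type} [Field F] [Field K] [Field κ] [Field E] [Algebra F K] [Algebra F κ] [Algebra κ E]

/-- the spaces after the extension of the base field -/
def ext (i : K →+* E) (L : ℕ → Submodule F K) (n : ℕ) : Submodule κ E :=
  Submodule.span κ (i '' (L n : Set K))

theorem ext_mul (i : K →+* E) (L : ℕ → Submodule F K)
    (mul : ∀ {m n : ℕ} {a b : K}, a ∈ L m → b ∈ L n → a * b ∈ L (m + n)) {m n : ℕ} {a b : E}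
    (ha : a ∈ ext (κ := κ) i L m) (hb : b ∈ ext (κ := κ) i L n) : a * b ∈ ext (κ := κ) i L (m + n) := by
  unfold ext at *
  induction ha using Submodule.span_induction with
  | mem x hx =>
    obtain ⟨x, hx, rfl⟩ := hx
    induction hb using Submodule.span_induction with
    | mem y hy =>
      obtain ⟨y, hy, rfl⟩ := hy
      rw [← map_mul]
      exact Submodule.subset_span ⟨x * y, mul hx hy, rfl⟩
    | zero => rw [mul_zero]; exact Submodule.zero_mem _
    | add y y' _ _ h1 h2 => rw [mul_add]; exact Submodule.add_mem _ h1 h2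
    | smul c y _ h1 => rw [mul_smul_comm]; exact Submodule.smul_mem _ c h1
  | zero => rw [zero_mul]; exact Submodule.zero_mem _
  | add x x' _ _ h1 h2 => rw [add_mul]; exact Submodule.add_mem _ h1 h2
  | smul c x _ h1 => rw [smul_mul_assoc]; exact Submodule.smul_mem _ c h1

theorem deg_contra (i : K →+* E)
    (hag : ∀ c : F, algebraMap κ E (algebraMap F κ c) = i (algebraMap F K c))
    (gen : ∀ x : E, ∃ (n : ℕ) (f : Fin n → K) (c : Fin n → κ), x = ∑ j, i (f j) * algebraMap κ E (c j))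
    (w : Place κ E) (L : ℕ → Submodule F K) (one : (1 : K) ∈ L 0)
    (mul : ∀ {m n : ℕ} {a b : K}, a ∈ L m → b ∈ L n → a * b ∈ L (m + n))
    (frac : ∀ f : K, ∃ n, ∃ a ∈ L n, ∃ s ∈ L n, s ≠ 0 ∧ f * s = a)
    (fin : ∀ n, FiniteDimensional F (L n))
    (γ n₀ : ℕ) (hγ : ∀ n, n₀ ≤ n → Module.finrank F (L n) ≤ γ * n)
    (b : E) (hb : b ∈ ext (κ := κ) i L 1) (hb0 : b ≠ 0) (m : ℕ) (hm : 1 ≤ m) (s : K) (hs : s ∈ L m) (hs0 : s ≠ 0)
    (e : K) (he : e ≠ 0) (hunit : w.ord (i (s * e ^ m)) = 0) (τ : ℕ) (hτ : (τ : ℤ) ≤ w.ord (b * i e)) :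
    τ ≤ γ := by
  have hi0 : ∀ x : K, x ≠ 0 → i x ≠ 0 := fun x hx => (map_ne_zero i).2 hx
  by_cases hτ0 : τ = 0
  · omega
  have hb1 : w.ord b = w.ord (b * i e) - w.ord (i e) := by
    rw [ord_mul w b (i e) hb0 (hi0 e he)]
    ring
  have hs1 : w.ord (i s) = - (m * w.ord (i e)) := by
    have h1 : w.ord (i (s * e ^ m)) = w.ord (i s) + m * w.ord (i e) := by
      rw [map_mul, map_pow, ord_mul w _ _ (hi0 s hs0) (pow_ne_zero _ (hi0 e he)), ord_powN w _ (hi0 e he)]
    rw [hunit] at h1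
    linarith
  let z : E := b ^ m / i s
  have hz0 : z ≠ 0 := div_ne_zero (pow_ne_zero _ hb0) (hi0 s hs0)
  have hz : w.ord z = m * w.ord (b * i e) := by
    have h1 : w.ord z = m * w.ord b - w.ord (i s) := by
      show w.ord (b ^ m / i s) = _
      rw [div_eq_mul_inv, ord_mul w _ _ (pow_ne_zero _ hb0) (inv_ne_zero (hi0 s hs0)), ord_inv,
        ord_powN w b hb0]
      ring
    rw [h1, hb1, hs1]
    ring
  have hmτ : ((m * τ : ℕ) : ℤ) ≤ w.ord z := by
    rw [hz]
    push_cast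
    exact mul_le_mul_of_nonneg_left hτ (by positivity)
  have hpos : (1 : ℤ) ≤ ((m * τ : ℕ) : ℤ) := by
    have : 1 ≤ m * τ := Nat.one_le_iff_ne_zero.2 (Nat.mul_ne_zero (by omega) hτ0)
    exact_mod_cast this
  obtain ⟨d, hd⟩ := Int.eq_ofNat_of_zero_le (by omega : 0 ≤ w.ord z)
  obtain ⟨t, ht0, ht⟩ := ord_unif w
  have hind := ram_indep w z t d (by omega) hz0 hd ht0 ht
  -- the graded system on `E`
  have hfrac : ∀ f : E, ∃ n, ∃ a ∈ ext (κ := κ) i L n, ∃ s ∈ ext (κ := κ) i L n, s ≠ 0 ∧ f * s = a := by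
    intro x
    obtain ⟨n, f, c, hx⟩ := gen x
    obtain ⟨q, r, hr, hr0, hq⟩ := common_den L one mul frac f
    refine ⟨q, x * i r, ?_, i r, Submodule.subset_span ⟨r, hr, rfl⟩, hi0 r hr0, rfl⟩
    rw [hx, Finset.sum_mul]
    refine Submodule.sum_mem _ fun j _ => ?_
    have h1 : i (f j) * algebraMap κ E (c j) * i r = c j • i (f j * r) := by
      rw [Algebra.smul_def, map_mul]
      ring
    rw [h1]
    exact Submodule.smul_mem _ _ (Submodule.subset_span ⟨f j * r, hq j, rfl⟩)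
  have hone : (1 : E) ∈ ext (κ := κ) i L 0 := Submodule.subset_span ⟨1, one, map_one i⟩
  have hdeg := deg_bound (ext (κ := κ) i L) hone (fun ha hb => ext_mul i L mul ha hb) hfrac
    (fun n => (span_le i hag (L n) (fin n)).1) γ n₀
    (fun n hn => ((span_le i hag (L n) (fin n)).2).trans (hγ n hn)) m (i s) (b ^ m)
    (Submodule.subset_span ⟨s, hs, rfl⟩) (by
      have h1 := mem_pow (ext (κ := κ) i L) hone (fun ha hb => ext_mul i L mul ha hb) hb m
      rwa [one_mul] at h1) (hi0 s hs0)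
    (trans_of_ord w z hz0 (by omega)) (fun j : Fin d => t ^ (j : ℕ)) hind
  have h1 : m * τ ≤ γ * m := by
    have h2 : ((m * τ : ℕ) : ℤ) ≤ (d : ℤ) := by
      rw [hd] at hmτ
      exact hmτ
    have h3 : m * τ ≤ d := by exact_mod_cast h2
    exact h3.trans hdeg
  rw [mul_comm γ m] at h1
  exact Nat.le_of_mul_le_mul_left h1 (by omega)

end Pool.Agent.H39.TU
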