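import Pool.Agent.H54.RV.A2
import Pool.Agent.H83.TU.Base

/-!
# [H39 TU EXT] Theorem U, case B: a place of degree one after an extension of the base field

The `F`-algebra structures of `v.R` and of its residue field are the instances `plAlg`, `plTower` of `H83/TU/Base.lean`.

`v` is a place of `K` over `F` with residue field `κ` finite over `F`, characteristic `0`.  There are a field `E` with maps
`i : K → E`, `a : κ → E` which agree on `F`, such that `E` is generated by both, and a discrete valuation ring `R` of `E`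
which contains `a κ`, such that `i f - a (residue f)` is a nonunit of `R` for all `f ∈ v.R` (so `R` dominates `v.R` and
`κ → E` is a section of the residue map).

PROOF.  `T = K ⊗[F] κ` is a finite `K`-algebra (`Module.Finite K T`), so artinian.  `B = v.R ⊗[F] κ`, finite and free
over `v.R`, the map `B → T` is injective (`v.R → K` injective, `κ` flat over `F`: `Module.Flat.rTensor_preserves_injective_linearMap`
or a basis of `κ` over `F`).  `ρ : B → κ`, `f ⊗ c ↦ residue f * c`, surjective, `P = ker ρ` prime.  The submonoid `M` =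
image in `T` of the complement of `P` does not contain `0`, so there is a prime `n` of `T` disjoint from `M`
(`Ideal.exists_le_prime_disjoint`); `n` is maximal (artinian ring).  `E = T ⧸ n`, `i`, `a` the obvious maps; every
element of `E` is a sum of products `i f * a c` (`TensorProduct.induction_on`).  `C = integralClosure v.R E` is a
Dedekind domain with fraction field `E` (`integralClosure.isDedekindDomain v.R K E`,
`integralClosure.isFractionRing_of_finite_extension`; `E / K` is finite, separable: characteristic `0`).  The ring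
homomorphism `ψ : B → E` has values in `C` (`B` is finite over `v.R`), its kernel is contained in `P` (if `ψ b = 0` then
the image of `b` in `T` is in `n`, so `b ∈ P`).  Lying over for the integral ring homomorphism `B → C`
(`Ideal.exists_ideal_over_prime_of_isIntegral` with `I = ⊥`): a prime `Q` of `C` with `ψ⁻¹ Q = P`.  `Q ≠ ⊥`: `P` contains
`t ⊗ 1` for a uniformizer `t` of `v.R`, and `i t ≠ 0`.  `R` = the valuation ring of `Q` (`plP F Q`, `A2`).  `a c ∈ C` for
`c ∈ κ`, so `a c ∈ R`.  `f ⊗ 1 - 1 ⊗ residue f ∈ P`, so `i f - a (residue f) ∈ Q` and (`plP_pos`) it is `0` or has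
positive order.
-/

set_option autoImplicit false

namespace Pool.Agent.H39.TU

open scoped TensorProduct
open Pool.Agent.H54.RV Pool.Agent.H83.TU

/-- an extension of the place `v` with a section of the residue map -/
structure Ext {F K : Type} [Field F] [Field K] [Algebra F K] (v : Place F K) where
  E : Type
  [fld : Field E]
  i : K →+* E
  a : IsLocalRing.ResidueField v.R →+* E
  agree : ∀ c : F, a (algebraMap F (IsLocalRing.ResidueField v.R) c) = i (algebraMap F K c)
  gen : ∀ x : E, ∃ (n : ℕ) (f : Fin n → K) (c : Fin n → IsLocalRing.ResidueField v.R),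
    x = ∑ j, i (f j) * a (c j)
  R : ValuationSubring E
  dvr : IsDiscreteValuationRing R
  mem : ∀ c, a c ∈ R
  pos : ∀ f : v.R, i f - a (IsLocalRing.residue v.R f) ∈ R ∧
    (i f - a (IsLocalRing.residue v.R f) ≠ 0 → (i f - a (IsLocalRing.residue v.R f))⁻¹ ∉ R)

attribute [instance] Ext.fld

/-- a valuation ring of a finite extension over a prime of an integral algebra -/
private theorem ext_val {A K E B : Type} [CommRing A] [IsDomain A] [IsDiscreteValuationRing A]
    [Field K] [Algebra A K] [IsFractionRing A K] [Field E] [Algebra K E] [Algebra A E]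
    [IsScalarTower A K E] [FiniteDimensional K E] [Algebra.IsSeparable K E] [CommRing B]
    (g : A →+* B) (hg : g.IsIntegral) (ψ : B →+* E) (hψ : ∀ a, ψ (g a) = algebraMap A E a)
    (P : Ideal B) [P.IsPrime] (hP : ∀ b, ψ b = 0 → b ∈ P) (t : A) (ht : t ≠ 0) (htP : g t ∈ P) :
    ∃ R : ValuationSubring E, IsDiscreteValuationRing R ∧ (∀ b, ψ b ∈ R) ∧
      ∀ b ∈ P, ψ b ≠ 0 → (ψ b)⁻¹ ∉ R := by
  have : IsDedekindDomain (integralClosure A E) := integralClosure.isDedekindDomain A K E
  have : IsFractionRing (integralClosure A E) E :=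
    integralClosure.isFractionRing_of_finite_extension K E
  have hcomp : ψ.comp g = algebraMap A E := RingHom.ext hψ
  have hint : ∀ b, ψ b ∈ integralClosure A E := by
    intro b
    obtain ⟨q, hq, hq0⟩ := hg b
    refine ⟨q, hq, ?_⟩
    have h1 := congrArg ψ hq0
    rw [Polynomial.hom_eval₂, hcomp, map_zero] at h1
    exact h1
  obtain ⟨ψ', hψ'⟩ : ∃ ψ' : B →+* integralClosure A E, ∀ b, (ψ' b : E) = ψ b :=
    ⟨ψ.codRestrict (integralClosure A E).toSubring hint, fun b => rfl⟩
  have hint2 : ψ'.IsIntegral := by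
    refine RingHom.IsIntegral.tower_top (f := g) ψ' ?_
    have h1 : ψ'.comp g = algebraMap A (integralClosure A E) := by
      refine RingHom.ext fun a => Subtype.ext ?_
      rw [RingHom.comp_apply, hψ', hψ]
      rfl
    rw [h1]
    exact algebraMap_isIntegral_iff.2 inferInstance
  let _ : Algebra B (integralClosure A E) := ψ'.toAlgebra
  have : Algebra.IsIntegral B (integralClosure A E) := algebraMap_isIntegral_iff.1 hint2
  obtain ⟨Q, -, hQp, hQ⟩ := Ideal.exists_ideal_over_prime_of_isIntegral P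
    (⊥ : Ideal (integralClosure A E)) (by
      intro b hb
      have h1 : ψ' b = 0 := Ideal.mem_bot.1 (Ideal.mem_comap.1 hb)
      exact hP b (by rw [← hψ', h1]; rfl))
  have hQ' : ∀ b, ψ' b ∈ Q ↔ b ∈ P := by
    intro b
    rw [← hQ]
    rfl
  have hinj : Function.Injective (algebraMap A E) := by
    rw [IsScalarTower.algebraMap_eq A K E]
    exact (algebraMap K E).injective.comp (IsFractionRing.injective A K)
  have hQ0 : Q ≠ ⊥ := by
    intro h
    have h1 := (hQ' (g t)).2 htP
    rw [h, Ideal.mem_bot] at h1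
    have h2 : algebraMap A E t = 0 := by
      rw [← hψ, ← hψ', h1]
      rfl
    exact ht (hinj (by rw [h2, map_zero]))
  obtain ⟨Qh, hQh⟩ : ∃ Qh : IsDedekindDomain.HeightOneSpectrum (integralClosure A E),
      Qh.asIdeal = Q := ⟨⟨Q, hQp, hQ0⟩, rfl⟩
  have hval : ∀ b, ψ b = algebraMap (integralClosure A E) E (ψ' b) := fun b => (hψ' b).symm
  refine ⟨(Qh.valuation E).valuationSubring, ?_, ?_, ?_⟩
  · rw [← IsDedekindDomain.HeightOneSpectrum.valuationSubringAtPrime_eq_valuationSubring]
    exact IsLocalization.AtPrime.isDiscreteValuationRing_of_dedekind_domain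
      (integralClosure A E) Qh.ne_bot
      (IsDedekindDomain.HeightOneSpectrum.valuationSubringAtPrime E Qh)
  · intro b
    rw [Valuation.mem_valuationSubring_iff, hval]
    exact Qh.valuation_le_one _
  · intro b hb h0 h1
    rw [Valuation.mem_valuationSubring_iff, map_inv₀] at h1
    have h2 : Qh.valuation E (ψ b) < 1 := by
      rw [hval, IsDedekindDomain.HeightOneSpectrum.valuation_lt_one_iff_mem, hQh]
      exact (hQ' b).2 hb
    have h3 : Qh.valuation E (ψ b) ≠ 0 := (Valuation.ne_zero_iff _).mpr h0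
    rw [inv_le_one₀ (zero_lt_iff.2 h3)] at h1
    exact absurd h1 (not_le.2 h2)

/-- a quotient field of the tensor product in which the given prime survives -/
private theorem ext_quot {F K A κ : Type} [Field F] [Field K] [Algebra F K] [CommRing A]
    [Algebra F A] (j₀ : A →ₐ[F] K) (hj₀ : Function.Injective j₀) [Field κ] [Algebra F κ]
    [Module.Finite F κ] (ρ : A ⊗[F] κ →+* κ) :
    ∃ (E : Type) (_ : Field E) (φ : K ⊗[F] κ →+* E), Function.Surjective φ ∧
      ∀ b : A ⊗[F] κ, φ (Algebra.TensorProduct.map j₀ (AlgHom.id F κ) b) = 0 → ρ b = 0 := by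
  obtain ⟨j, hj⟩ : ∃ j : A ⊗[F] κ →ₐ[F] K ⊗[F] κ,
      j = Algebra.TensorProduct.map j₀ (AlgHom.id F κ) := ⟨_, rfl⟩
  have hjinj : Function.Injective j := by
    have h1 := Module.Flat.rTensor_preserves_injective_linearMap (M := κ) j₀.toLinearMap hj₀
    intro x y hxy
    apply h1
    have h2 : ∀ z : A ⊗[F] κ, LinearMap.rTensor κ j₀.toLinearMap z = j z := by
      intro z
      rw [hj]
      induction z using TensorProduct.induction_on with
      | zero => rw [map_zero, map_zero]
      | add a b ha hb => rw [map_add, map_add, ha, hb]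
      | tmul a c =>
        rw [LinearMap.rTensor_tmul, Algebra.TensorProduct.map_tmul]
        rfl
    rw [h2, h2, hxy]
  have hker : (RingHom.ker ρ).IsPrime := RingHom.ker_isPrime ρ
  have hdisj : Disjoint ((⊥ : Ideal (K ⊗[F] κ)) : Set (K ⊗[F] κ))
      ((RingHom.ker ρ).primeCompl.map (j : A ⊗[F] κ →* K ⊗[F] κ)) := by
    rw [Set.disjoint_left]
    intro x hx hx2
    obtain ⟨b, hb, hbx⟩ := hx2
    have h1 : j b = 0 := by
      have h2 : x = 0 := hx
      rw [← h2]
      exact hbx
    have h3 : b = 0 := hjinj (by rw [h1, map_zero])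
    exact hb (by
      rw [h3]
      exact Ideal.zero_mem _)
  obtain ⟨n, hn, -, hn2⟩ := Ideal.exists_le_prime_disjoint _ _ hdisj
  have : IsArtinianRing (K ⊗[F] κ) := IsArtinianRing.of_finite K _
  have hmax : n.IsMaximal := inferInstance
  refine ⟨K ⊗[F] κ ⧸ n, Ideal.Quotient.field n, Ideal.Quotient.mk n,
    Ideal.Quotient.mk_surjective, ?_⟩
  intro b hb
  rw [← hj] at hb
  by_contra h
  have h1 : j b ∈ n := Ideal.Quotient.eq_zero_iff_mem.1 hb
  rw [Set.disjoint_left] at hn2
  exact hn2 h1 ⟨b, h, rfl⟩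

theorem exists_ext {F K : Type} [Field F] [CharZero F] [Field K] [Algebra F K] (v : Place F K)
    [Module.Finite F (IsLocalRing.ResidueField v.R)] : Nonempty (Ext v) := by
  have hdvr := v.dvr
  have : CharZero K := charZero_of_injective_algebraMap (algebraMap F K).injective
  obtain ⟨j₀, hj₀⟩ : ∃ j₀ : v.R →ₐ[F] K, ∀ f : v.R, j₀ f = (f : K) :=
    ⟨IsScalarTower.toAlgHom F v.R K, fun f => rfl⟩
  have hj₀inj : Function.Injective j₀ := by
    intro x y hxy
    rw [hj₀, hj₀] at hxy
    exact Subtype.ext hxy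
  obtain ⟨r, hr⟩ : ∃ r : v.R →ₐ[F] IsLocalRing.ResidueField v.R,
      ∀ f, r f = IsLocalRing.residue v.R f :=
    ⟨IsScalarTower.toAlgHom F v.R (IsLocalRing.ResidueField v.R), fun f => rfl⟩
  obtain ⟨ρ, hρ⟩ : ∃ ρ : v.R ⊗[F] IsLocalRing.ResidueField v.R →+* IsLocalRing.ResidueField v.R,
      ∀ f c, ρ (f ⊗ₜ[F] c) = r f * c :=
    ⟨(Algebra.TensorProduct.lift r (AlgHom.id F _) fun _ _ => Commute.all _ _).toRingHom,
      fun f c => by simp⟩
  obtain ⟨E, _, φ, hφ, hker⟩ := ext_quot j₀ hj₀inj ρ
  obtain ⟨ψ, hψ⟩ : ∃ ψ : v.R ⊗[F] IsLocalRing.ResidueField v.R →+* E,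
      ∀ b, ψ b = φ (Algebra.TensorProduct.map j₀ (AlgHom.id F _) b) :=
    ⟨φ.comp (Algebra.TensorProduct.map j₀ (AlgHom.id F _)).toRingHom, fun b => rfl⟩
  obtain ⟨i, hi⟩ : ∃ i : K →+* E, ∀ x, i x = φ (x ⊗ₜ 1) :=
    ⟨φ.comp Algebra.TensorProduct.includeLeftRingHom, fun x => rfl⟩
  obtain ⟨a, ha⟩ : ∃ a : IsLocalRing.ResidueField v.R →+* E, ∀ c, a c = φ (1 ⊗ₜ c) :=
    ⟨φ.comp (Algebra.TensorProduct.includeRight :
      IsLocalRing.ResidueField v.R →ₐ[F] K ⊗[F] IsLocalRing.ResidueField v.R).toRingHom,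
      fun c => rfl⟩
  let _ : Algebra K E := i.toAlgebra
  let _ : Algebra v.R E := (i.comp (algebraMap v.R K)).toAlgebra
  have : IsScalarTower v.R K E := IsScalarTower.of_algebraMap_eq fun _ => rfl
  have hfin : FiniteDimensional K E := by
    let L : K ⊗[F] IsLocalRing.ResidueField v.R →ₗ[K] E :=
      { toFun := φ
        map_add' := map_add φ
        map_smul' := by
          intro c x
          rw [Algebra.smul_def, Algebra.smul_def, map_mul]
          congr 1
          exact (hi c).symm }
    exact Module.Finite.of_surjective L hφ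
  have : Algebra.IsSeparable K E := inferInstance
  have hint : (algebraMap v.R (v.R ⊗[F] IsLocalRing.ResidueField v.R)).IsIntegral :=
    algebraMap_isIntegral_iff.2 inferInstance
  have hgψ : ∀ f : v.R, ψ (algebraMap v.R (v.R ⊗[F] IsLocalRing.ResidueField v.R) f) =
      algebraMap v.R E f := by
    intro f
    rw [hψ, Algebra.TensorProduct.algebraMap_apply, Algebra.TensorProduct.map_tmul, hj₀, map_one]
    exact (hi _).symm
  obtain ⟨t, ht⟩ := IsDiscreteValuationRing.exists_irreducible v.R
  have htr : r t = 0 := by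
    rw [hr, IsLocalRing.residue_eq_zero_iff]
    exact ht.not_isUnit
  have hkp : (RingHom.ker ρ).IsPrime := RingHom.ker_isPrime ρ
  obtain ⟨R, hR, hR1, hR2⟩ := ext_val (K := K)
    (algebraMap v.R (v.R ⊗[F] IsLocalRing.ResidueField v.R)) hint ψ hgψ (RingHom.ker ρ)
    (fun b hb => RingHom.mem_ker.2 (hker b (by rw [← hψ, hb]))) t ht.ne_zero (by
      rw [RingHom.mem_ker, Algebra.TensorProduct.algebraMap_apply, hρ]
      show r t * 1 = 0
      rw [htr, zero_mul])
  have hψt : ∀ (f : v.R) (c : IsLocalRing.ResidueField v.R), ψ (f ⊗ₜ c) = i f * a c := by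
    intro f c
    rw [hψ, hi, ha, ← map_mul, Algebra.TensorProduct.map_tmul, Algebra.TensorProduct.tmul_mul_tmul,
      hj₀, mul_one, one_mul]
    rfl
  have hψa : ∀ c, ψ (1 ⊗ₜ c) = a c := by
    intro c
    rw [hψt]
    show i ((1 : v.R) : K) * a c = a c
    rw [OneMemClass.coe_one, map_one, one_mul]
  have hψd : ∀ f : v.R, ψ (f ⊗ₜ 1 - 1 ⊗ₜ IsLocalRing.residue v.R f) =
      i f - a (IsLocalRing.residue v.R f) := by
    intro f
    rw [map_sub, hψt, map_one, mul_one, hψa]
  have e1 : ∀ c : F, a (algebraMap F (IsLocalRing.ResidueField v.R) c) = i (algebraMap F K c) := by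
    intro c
    rw [ha, hi]
    congr 1
    rw [Algebra.algebraMap_eq_smul_one, Algebra.algebraMap_eq_smul_one, TensorProduct.tmul_smul,
      TensorProduct.smul_tmul']
  have e2 : ∀ x : E, ∃ (n : ℕ) (f : Fin n → K) (c : Fin n → IsLocalRing.ResidueField v.R),
      x = ∑ j, i (f j) * a (c j) := by
    intro x
    obtain ⟨y, rfl⟩ := hφ x
    obtain ⟨n, f, c, rfl⟩ := TensorProduct.exists_sum_tmul_eq y
    refine ⟨n, f, c, ?_⟩
    rw [map_sum]
    refine Finset.sum_congr rfl fun j _ => ?_
    rw [hi, ha, ← map_mul, Algebra.TensorProduct.tmul_mul_tmul, mul_one, one_mul]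
  have e3 : ∀ c, a c ∈ R := by
    intro c
    rw [← hψa]
    exact hR1 _
  have e4 : ∀ f : v.R, i f - a (IsLocalRing.residue v.R f) ∈ R ∧
      (i f - a (IsLocalRing.residue v.R f) ≠ 0 →
        (i f - a (IsLocalRing.residue v.R f))⁻¹ ∉ R) := by
    intro f
    rw [← hψd]
    refine ⟨hR1 _, hR2 _ ?_⟩
    rw [RingHom.mem_ker, map_sub, hρ, hρ, hr, map_one, mul_one, one_mul, sub_self]
  exact ⟨@Ext.mk F K _ _ _ v E _ i a e1 e2 R hR e3 e4⟩

end Pool.Agent.H39.TU
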