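import Pool.Agent.H24.TU.Def

/-!
# [H39 TU TRD] Theorem U, case B: the transcendence degree of a point over the centre of a place
-/

set_option autoImplicit false

namespace Pool.Agent.H39.TU

open scoped TensorProduct
open Pool.Agent.H24.TU

theorem trd_two {k κ K E : Type} [Field k] [Field κ] [Field K] [Field E] [Algebra k κ] [Algebra k K] [Algebra k E]
    (a : κ →ₐ[k] E) (z : K →ₐ[k] E) (h3 : Algebra.trdeg k K = 3) (h1 : Algebra.trdeg k κ ≤ 1) :
    2 ≤ Algebra.trdeg κ ((κ ⊗[k] K) ⧸ ptI a z) := by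
  let g : K →ₐ[k] ((κ ⊗[k] K) ⧸ ptI a z) :=
    (Ideal.Quotient.mkₐ k (ptI a z)).comp Algebra.TensorProduct.includeRight
  have hg : Function.Injective g := g.toRingHom.injective
  have h2 : (3 : Cardinal) ≤ Algebra.trdeg k ((κ ⊗[k] K) ⧸ ptI a z) := by
    rw [← h3]
    exact trdeg_le_of_injective g hg
  haveI hf1 : FaithfulSMul κ ((κ ⊗[k] K) ⧸ ptI a z) :=
    (faithfulSMul_iff_algebraMap_injective κ _).2
      (algebraMap κ ((κ ⊗[k] K) ⧸ ptI a z)).injective
  haveI hf2 : FaithfulSMul k κ :=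
    (faithfulSMul_iff_algebraMap_injective k _).2 (algebraMap k κ).injective
  have h4 : Algebra.trdeg k κ + Algebra.trdeg κ ((κ ⊗[k] K) ⧸ ptI a z) =
      Algebra.trdeg k ((κ ⊗[k] K) ⧸ ptI a z) := trdeg_add_eq k κ
  rw [← h4] at h2
  by_contra h5
  rw [not_le] at h5
  have h6 : Algebra.trdeg κ ((κ ⊗[k] K) ⧸ ptI a z) ≤ 1 := by
    have h7 : ((2 : ℕ) : Cardinal) = Order.succ ((1 : ℕ) : Cardinal) := by
      rw [Cardinal.succ_natCast]
      norm_num
    have h5' : Algebra.trdeg κ ((κ ⊗[k] K) ⧸ ptI a z) < ((2 : ℕ) : Cardinal) := by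
      exact_mod_cast h5
    rw [h7] at h5'
    have h8 := Order.lt_succ_iff.1 h5'
    exact_mod_cast h8
  have h8 : (3 : Cardinal) ≤ 1 + 1 := h2.trans (add_le_add h1 h6)
  have h9 : ((3 : ℕ) : Cardinal) ≤ ((2 : ℕ) : Cardinal) := by
    refine le_trans (le_of_eq (by norm_num)) (h8.trans (le_of_eq (by norm_num)))
  rw [Nat.cast_le] at h9
  omega

end Pool.Agent.H39.TU
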