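import Pool.Agent.H39.TU.GUU
import Pool.Agent.H39.TU.CB1
import Pool.Agent.H39.TU.TRD
import Pool.Agent.H39.TU.EXT
import Pool.Agent.H83.TU.Cen
import Pool.Agent.H54.RV.B4

/-!
# [H39 TU CB] Theorem U, Theorem II, case B

`F` a field between `k` and `K`, `p` a place of `K` over `F` whose centre on `X` has a residue field of transcendence degree
at most `1`.  If the growth of the `F`-spaces spanned by the sections of `n D` is at most `γ n`, then
`h0 D 1 ≤ (γ + 4).choose 3`.
-/

set_option autoImplicit false

namespace Pool.Agent.H39.TU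

open scoped TensorProduct
open Pool.Agent.H54.RV Pool.Agent.H83.TU Pool.Agent.H24.TU

variable {k K : Type} [Field k] [Field K] [Algebra k K] {X : Mod k K}

/-- smooth points: three differentials generate the module of differentials of the local ring -/
def SmP (X : Mod k K) (x : X.P) : Prop :=
  ∃ c : Fin 3 → X.O x,
    Submodule.span (X.O x) (Set.range fun i => KaehlerDifferential.D k (X.O x) (c i)) = ⊤

/-- the residue map -/
noncomputable def resA (X : Mod k K) (x : X.P) : X.O x →ₐ[k] X.kap x :=
  { (IsLocalRing.residue (X.O x) : X.O x →+* X.kap x) with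
    commutes' := fun _ => rfl }

/-- the inclusion of the local ring of the centre in the valuation ring -/
def cenI {x : X.P} {p : Place k K} (hd : Dom X x p) : X.O x →+* p.R :=
  (X.O x).val.toRingHom.codRestrict p.R.toSubring (fun a => (hd a.1 a.2).1)

theorem cenI_coe {x : X.P} {p : Place k K} (hd : Dom X x p) (a : X.O x) : ((cenI hd a : p.R) : K) = a := rfl

theorem cenI_local {x : X.P} {p : Place k K} (hd : Dom X x p) : IsLocalHom (cenI hd) := by
  constructor
  intro a ha
  have h0 : (a : K) ≠ 0 := by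
    intro h
    have h1 : cenI hd a = 0 := Subtype.ext h
    rw [h1] at ha
    exact not_isUnit_zero ha
  obtain ⟨u, hu⟩ := ha
  have h2 : ((u⁻¹ : (p.R)ˣ) : p.R).1 = (a : K)⁻¹ := by
    have h3 : (((u : p.R) * ((u⁻¹ : (p.R)ˣ) : p.R) : p.R) : K) = 1 := by
      rw [Units.mul_inv]
      rfl
    have h4 : (a : K) * ((u⁻¹ : (p.R)ˣ) : p.R).1 = 1 := by
      have h5 : ((u : p.R) : K) = a := by rw [hu]; rfl
      rw [← h5]
      exact h3
    exact eq_inv_of_mul_eq_one_right h4
  have h6 : (a : K)⁻¹ ∈ p.R := by
    rw [← h2]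
    exact ((u⁻¹ : (p.R)ˣ) : p.R).2
  have h7 := (hd a.1 a.2).2 h0 h6
  exact IsUnit.of_mul_eq_one ⟨(a : K)⁻¹, h7⟩ (Subtype.ext (mul_inv_cancel₀ h0))

/-- the section of `D` as an element of the local ring -/
noncomputable def secJ (D : Cart X) (x : X.P) : secL D 1 →ₗ[k] X.O x where
  toFun s := ⟨s.1 * D.eq x, by
    have h := s.2 x
    rwa [pow_one] at h⟩
  map_add' s t := Subtype.ext (add_mul _ _ _)
  map_smul' c s := Subtype.ext (smul_mul_assoc _ _ _)

theorem caseB [IsAlgClosed k] [CharZero k] (h : Hyp X) (D : Cart X) (hD : Ample D)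
    (hfin : ∀ n, Module.Finite k (secL D n))
    (hfrac : ∀ f : K, ∃ n, ∃ a ∈ secL D n, ∃ s ∈ secL D n, s ≠ 0 ∧ f * s = a)
    (F : IntermediateField k K) (p : Place F K) [Module.Finite F (IsLocalRing.ResidueField p.R)]
    (γ n₀ : ℕ)
    (hγ : ∀ n, n₀ ≤ n → Module.finrank F (Submodule.span F (secL D n : Set K)) ≤ γ * n)
    (hh : (γ + 4).choose 3 < h0 D 1)
    (hξ : Algebra.trdeg k (X.kap (cenK h.var h.gen (down p))) ≤ 1)
    (hsm : SmP X (cenK h.var h.gen (down p)))
    (hst : StarOne k (X.kap (cenK h.var h.gen (down p))) K (secL D 1)) : False := by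
  classical
  obtain ⟨ξ, hξdef⟩ : ∃ ξ, ξ = cenK h.var h.gen (down p) := ⟨_, rfl⟩
  have hdom : Dom X ξ (down p) := by rw [hξdef]; exact cenK_dom h.var h.gen (down p)
  rw [← hξdef] at hξ hsm hst
  obtain ⟨c, hc⟩ := hsm
  obtain ⟨x⟩ := exists_ext p
  let cI : X.O ξ →+* p.R := cenI hdom
  have hloc : IsLocalHom cI := cenI_local hdom
  -- the algebra structures on `E`
  let algE : Algebra k x.E := (x.i.comp (algebraMap k K)).toAlgebra
  let algV : Algebra (IsLocalRing.ResidueField p.R) x.E := x.a.toAlgebra
  let w : Place (IsLocalRing.ResidueField p.R) x.E := ⟨x.R, x.mem, x.dvr⟩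
  -- the residue field of the centre
  let ρ : X.kap ξ →+* IsLocalRing.ResidueField p.R :=
    IsLocalRing.ResidueField.map (R := X.O ξ) (S := p.R) cI
  have hρ : ∀ f : X.O ξ, ρ (resA X ξ f) = IsLocalRing.residue p.R (cI f) := fun f => rfl
  let a : X.kap ξ →ₐ[k] x.E :=
    { x.a.comp ρ with
      commutes' := fun r => by
        have h1 : ρ (algebraMap k (X.kap ξ) r) =
            algebraMap F (IsLocalRing.ResidueField p.R) (algebraMap k F r) := rfl
        show x.a (ρ (algebraMap k (X.kap ξ) r)) = x.i (algebraMap k K r)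
        rw [h1, x.agree]
        rfl }
  let z : K →ₐ[k] x.E := { x.i with commutes' := fun r => rfl }
  have hess : Algebra.EssFiniteType k (X.kap ξ) := by
    have h1 := kap_fg h.var ξ
    have h2 := IntermediateField.essFiniteType_iff.2 h1
    exact Algebra.EssFiniteType.of_surjective
      (IntermediateField.topEquiv (F := k) (E := X.kap ξ)).toAlgHom
      (IntermediateField.topEquiv (F := k) (E := X.kap ξ)).surjective
  have hfin1 := hfin 1
  have htr := trd_two a z h.tr hξ
  obtain ⟨u, hu, hu0⟩ := exists_u (secL D 1) (secJ D ξ) (resA X ξ) c hc (γ + 2) hh a z htr hst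
  -- the values at `E`
  let i' : X.O ξ →ₐ[k] x.E := z.comp (X.O ξ).val
  have hpsi : ∀ g : X.kap ξ ⊗[k] (secL D 1),
      psi a i' ((secJ D ξ).baseChange (X.kap ξ) g) =
        pt a z ((secL D 1).subtype.baseChange (X.kap ξ) g) * x.i (D.eq ξ) := by
    intro g
    induction g using TensorProduct.induction_on with
    | zero => simp
    | add g₁ g₂ h₁ h₂ => rw [map_add, map_add, h₁, h₂, map_add, map_add, add_mul]
    | tmul r s =>
      rw [LinearMap.baseChange_tmul, LinearMap.baseChange_tmul, psi_tmul, pt_tmul, mul_assoc]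
      congr 1
      show x.i (s.1 * D.eq ξ) = x.i s.1 * x.i (D.eq ξ)
      rw [map_mul]
  have hmemR : ∀ f : p.R, x.i f ∈ x.R := by
    intro f
    have h1 := add_mem (x.pos f).1 (x.mem (IsLocalRing.residue p.R f))
    rwa [sub_add_cancel] at h1
  have hord := psi_pow w a i' (resA X ξ) (fun r => x.mem _) (fun f => hmemR (cI f))
    (fun f hf => by
      have h1 : i' f - a (resA X ξ f) = x.i (cI f : p.R) - x.a (IsLocalRing.residue p.R (cI f)) := rfl
      rw [h1] at hf ⊢
      obtain ⟨h2, h3⟩ := x.pos (cI f)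
      have h4 := (ord_nonneg w _ hf).2 h2
      rcases h4.lt_or_eq with h5 | h5
      · exact h5
      · exact absurd ((ord_eq_zero w _ hf).1 h5.symm).2 (h3 hf)) (γ + 2 - 1) _ hu (by
      rw [hpsi]
      exact mul_ne_zero hu0 ((map_ne_zero x.i).2 (D.ne ξ)))
  rw [hpsi] at hord
  -- a section which is a unit at the centre
  obtain ⟨m, hm, s, hs, hnz, -⟩ := hD ξ
  have hs0 : s ≠ 0 := fun h1 => hnz.1 (by rw [h1, zero_mul])
  have hunit : w.ord (x.i (s * D.eq ξ ^ m)) = 0 := by
    have h1 : x.i (s * D.eq ξ ^ m) ≠ 0 := (map_ne_zero x.i).2 hnz.1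
    rw [ord_eq_zero w _ h1]
    refine ⟨hmemR (cI ⟨_, hnz.2.1⟩), ?_⟩
    rw [← map_inv₀]
    exact hmemR (cI ⟨_, hnz.2.2⟩)
  -- the graded system over `F`
  have hle : ∀ n, (secL D n : Set K) ⊆ Submodule.span F (secL D n : Set K) := fun n => Submodule.subset_span
  have hmul : ∀ {m n : ℕ} {f g : K}, f ∈ secL D m → g ∈ secL D n → f * g ∈ secL D (m + n) := by
    intro m n f g hf hg y
    have h1 := (X.O y).mul_mem (hf y) (hg y)
    have h2 : f * g * D.eq y ^ (m + n) = f * D.eq y ^ m * (g * D.eq y ^ n) := by
      rw [pow_add]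
      ring
    rw [h2]
    exact h1
  have hmulF : ∀ {m n : ℕ} {f g : K}, f ∈ Submodule.span F (secL D m : Set K) →
      g ∈ Submodule.span F (secL D n : Set K) → f * g ∈ Submodule.span F (secL D (m + n) : Set K) := by
    intro m n f g hf hg
    induction hf using Submodule.span_induction with
    | mem f hf =>
      induction hg using Submodule.span_induction with
      | mem g hg => exact Submodule.subset_span (hmul hf hg)
      | zero => rw [mul_zero]; exact Submodule.zero_mem _
      | add y y' _ _ h1 h2 => rw [mul_add]; exact Submodule.add_mem _ h1 h2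
      | smul c y _ h1 => rw [mul_smul_comm]; exact Submodule.smul_mem _ c h1
    | zero => rw [zero_mul]; exact Submodule.zero_mem _
    | add y y' _ _ h1 h2 => rw [add_mul]; exact Submodule.add_mem _ h1 h2
    | smul c y _ h1 => rw [smul_mul_assoc]; exact Submodule.smul_mem _ c h1
  have hfinF : ∀ n, FiniteDimensional F (Submodule.span F (secL D n : Set K)) := by
    intro n
    have := hfin n
    obtain ⟨t, ht⟩ := (Module.Finite.iff_fg.1 this)
    have h1 : Submodule.span F (secL D n : Set K) = Submodule.span F (t : Set K) := by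
      apply le_antisymm
      · rw [Submodule.span_le]
        intro y hy
        rw [← ht] at hy
        exact Submodule.span_le_restrictScalars k F (t : Set K) hy
      · refine Submodule.span_mono ?_
        intro y hy
        rw [← ht]
        exact Submodule.subset_span hy
    rw [h1]
    exact FiniteDimensional.span_finset F t
  have hone : (1 : K) ∈ Submodule.span F (secL D 0 : Set K) := by
    refine Submodule.subset_span fun y => ?_
    rw [pow_zero, mul_one]
    exact (X.O y).one_mem
  have hb : pt a z ((secL D 1).subtype.baseChange (X.kap ξ) u) ∈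
      ext (κ := IsLocalRing.ResidueField p.R) x.i (fun n => Submodule.span F (secL D n : Set K)) 1 := by
    unfold ext
    generalize u = g
    induction g using TensorProduct.induction_on with
    | zero => rw [map_zero, map_zero]; exact Submodule.zero_mem _
    | add g₁ g₂ h₁ h₂ => rw [map_add, map_add]; exact Submodule.add_mem _ h₁ h₂
    | tmul r s =>
      rw [LinearMap.baseChange_tmul, pt_tmul]
      have h1 : a r * z ((secL D 1).subtype s) = (ρ r) • x.i s.1 := by
        rw [Algebra.smul_def]
        rfl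
      rw [h1]
      exact Submodule.smul_mem _ _ (Submodule.subset_span ⟨s.1, hle 1 s.2, rfl⟩)
  have hfin := deg_contra (F := F) (κ := IsLocalRing.ResidueField p.R) x.i x.agree x.gen w
    (fun n => Submodule.span F (secL D n : Set K)) hone hmulF
    (fun f => by
      obtain ⟨n, b, hb, s, hs, hs0, hf⟩ := hfrac f
      exact ⟨n, b, hle n hb, s, hle n hs, hs0, hf⟩) hfinF γ n₀ hγ _ hb hu0 m hm s (hle m hs) hs0
    (D.eq ξ) (D.ne ξ) hunit (γ + 2 - 1) hord
  omega

end Pool.Agent.H39.TU
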