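import Pool.Agent.H39.TU.SEC1
import Pool.Agent.H24.TU.Def
import Pool.Agent.H39.TU.RAM

/-!
# [H39 TU PTS] Theorem U, case B: coefficient derivations and the order at a point

* `dR θ`: the coefficient derivation of `X ⊗ R` (`R` any commutative `k`-algebra) given by a derivation `θ` of `X`;
  `dR_mul`: the Leibniz rule (`TensorProduct.induction_on` twice, as for `dX` in `H24/TU/Def.lean`).
* `dR_pow`: `dR θ` maps `I ^ (m + 1)` to `I ^ m`, for any ideal `I` (induction on `m` with `Submodule.smul_induction_on`/
  `Ideal.pow_succ`, `dR (a * b) = a * dR b + b * dR a`; or `Submodule.span_induction`).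
* `psi`: the ring homomorphism `κ ⊗ R → E`, `c ⊗ f ↦ a c * i f` (`Algebra.TensorProduct.lift`, as a `k`-algebra map).
* `psi_pow`: if `W` is a valuation ring of `E` with `psi` of all the `uu φ f` in `W` and not invertible in `W` (or `0`) and
  `a c ∈ W` for all `c`, and `w` is the order of the place of `W`: `g ∈ mp φ ^ m`, `psi g ≠ 0` imply `m ≤ w (psi g)`.
  Proof: `mp_span`: `psi` maps `mp φ` into the maximal ideal `{x ∈ W : x = 0 or 0 < w x}`; the set
  `{x | x = 0 or m ≤ w x}` is closed under sums (`ord_add_ge` in `RAM`) and multiplication by elements of `W`, and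
  contains the products of `m` elements of the maximal ideal; `Submodule.pow_induction_on_left'` or induction on `m`.
-/

set_option autoImplicit false

namespace Pool.Agent.H39.TU

open scoped TensorProduct
open Pool.Agent.H54.RV Pool.Agent.H24.TU

section der

variable {k X R : Type} [Field k] [Field X] [CommRing R] [Algebra k X] [Algebra k R]

/-- the coefficient derivation of `X ⊗ R` -/
noncomputable def dR (R : Type) [CommRing R] [Algebra k R] (θ : Derivation k X X) :
    X ⊗[k] R →ₗ[k] X ⊗[k] R := LinearMap.rTensor R θ.toLinearMap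

theorem dR_tmul (θ : Derivation k X X) (x : X) (f : R) : dR R θ (x ⊗ₜ[k] f) = θ x ⊗ₜ[k] f := rfl

theorem dR_mul (θ : Derivation k X X) (a b : X ⊗[k] R) :
    dR R θ (a * b) = a * dR R θ b + b * dR R θ a := by
  induction a using TensorProduct.induction_on with
  | zero => simp
  | add a₁ a₂ h₁ h₂ =>
    rw [add_mul, map_add, map_add, h₁, h₂]
    ring
  | tmul x f =>
    induction b using TensorProduct.induction_on with
    | zero => simp
    | add b₁ b₂ h₁ h₂ =>
      rw [mul_add, map_add, map_add, h₁, h₂]
      ring
    | tmul y g =>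
      rw [Algebra.TensorProduct.tmul_mul_tmul, dR_tmul, dR_tmul, dR_tmul, Algebra.TensorProduct.tmul_mul_tmul,
        Algebra.TensorProduct.tmul_mul_tmul, Derivation.leibniz, smul_eq_mul, smul_eq_mul, TensorProduct.add_tmul,
        mul_comm g f]

theorem dR_pow (θ : Derivation k X X) (I : Ideal (X ⊗[k] R)) (m : ℕ) (g : X ⊗[k] R)
    (hg : g ∈ I ^ (m + 1)) : dR R θ g ∈ I ^ m := by
  induction m generalizing g with
  | zero => simp
  | succ m ih =>
    rw [pow_succ] at hg
    refine Submodule.mul_induction_on hg ?_ ?_
    · intro a ha b hb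
      rw [dR_mul]
      refine add_mem (Ideal.mul_mem_right _ _ ha) ?_
      rw [pow_succ, mul_comm (I ^ m) I]
      exact Ideal.mul_mem_mul hb (ih a ha)
    · intro a b ha hb
      rw [map_add]
      exact add_mem ha hb

end der

section point

variable {k κ R E : Type} [Field k] [Field κ] [CommRing R] [Algebra k κ] [Algebra k R] [Field E] [Algebra k E]

/-- the ring homomorphism `c ⊗ f ↦ a c * i f` -/
noncomputable def psi (a : κ →ₐ[k] E) (i : R →ₐ[k] E) : κ ⊗[k] R →ₐ[k] E :=
  Algebra.TensorProduct.lift a i (fun _ _ => Commute.all _ _)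

theorem psi_tmul (a : κ →ₐ[k] E) (i : R →ₐ[k] E) (c : κ) (f : R) : psi a i (c ⊗ₜ[k] f) = a c * i f := by
  simp [psi]

theorem psi_pow {F : Type} [Field F] [Algebra F E] (w : Place F E) (a : κ →ₐ[k] E) (i : R →ₐ[k] E)
    (φ : R →ₐ[k] κ) (ha : ∀ c, a c ∈ w.R) (hi : ∀ f, i f ∈ w.R)
    (hpos : ∀ f, i f - a (φ f) ≠ 0 → 0 < w.ord (i f - a (φ f)))
    (m : ℕ) (g : κ ⊗[k] R) (hg : g ∈ mp φ ^ m) (h0 : psi a i g ≠ 0) : (m : ℤ) ≤ w.ord (psi a i g) := by
  have hA : ∀ g : κ ⊗[k] R, psi a i g ∈ w.R := by
    intro g
    induction g using TensorProduct.induction_on with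
    | zero => rw [map_zero]; exact w.R.zero_mem
    | add x y hx hy => rw [map_add]; exact add_mem hx hy
    | tmul c f => rw [psi_tmul]; exact mul_mem (ha c) (hi f)
  have hB : ∀ g : κ ⊗[k] R, g ∈ mp φ → psi a i g ≠ 0 → (1 : ℤ) ≤ w.ord (psi a i g) := by
    intro g hg
    have hg' : g ∈ Submodule.span κ (Set.range (uu φ)) := by
      rw [← mp_span]
      exact hg
    induction hg' using Submodule.span_induction with
    | mem x hx =>
      obtain ⟨f, rfl⟩ := hx
      intro h
      have e : psi a i (uu φ f) = i f - a (φ f) := by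
        rw [uu, map_sub, psi_tmul, psi_tmul, map_one, map_one, one_mul, mul_one]
      rw [e] at h ⊢
      have := hpos f h
      omega
    | zero => intro h; exact absurd (map_zero _) h
    | add x y hx hy h1 h2 =>
      intro h
      rw [map_add] at h ⊢
      have hx' : x ∈ mp φ := by
        have : x ∈ (mp φ).restrictScalars κ := by rw [mp_span]; exact hx
        exact this
      have hy' : y ∈ mp φ := by
        have : y ∈ (mp φ).restrictScalars κ := by rw [mp_span]; exact hy
        exact this
      exact ord_add_ge w _ _ _ (h1 hx') (h2 hy') h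
    | smul c x hx h1 =>
      intro h
      have hx' : x ∈ mp φ := by
        have : x ∈ (mp φ).restrictScalars κ := by rw [mp_span]; exact hx
        exact this
      have e : psi a i (c • x) = a c * psi a i x := by
        have e1 : c • x = (c ⊗ₜ[k] (1 : R)) * x := by
          rw [Algebra.smul_def, Algebra.TensorProduct.algebraMap_apply]
          rfl
        rw [e1, map_mul, psi_tmul, map_one, mul_one]
      rw [e] at h ⊢
      have hc0 : a c ≠ 0 := left_ne_zero_of_mul h
      have hx0 : psi a i x ≠ 0 := right_ne_zero_of_mul h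
      rw [ord_mul w _ _ hc0 hx0]
      have h3 := h1 hx' hx0
      have h4 := (ord_nonneg w _ hc0).2 (ha c)
      omega
  have hC : ∀ m : ℕ, ∀ g : κ ⊗[k] R, g ∈ mp φ ^ m → psi a i g ≠ 0 → (m : ℤ) ≤ w.ord (psi a i g) := by
    intro m
    induction m with
    | zero =>
      intro g _ h
      exact_mod_cast (ord_nonneg w _ h).2 (hA g)
    | succ m ih =>
      intro g hg
      rw [pow_succ] at hg
      refine Submodule.mul_induction_on hg ?_ ?_
      · intro x hx y hy h
        rw [map_mul] at h ⊢
        have hx0 := left_ne_zero_of_mul h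
        have hy0 := right_ne_zero_of_mul h
        rw [ord_mul w _ _ hx0 hy0]
        have h1 := ih x hx hx0
        have h2 := hB y hy hy0
        push_cast
        omega
      · intro x y hx hy h
        rw [map_add] at h ⊢
        exact ord_add_ge w _ _ _ hx hy h
  exact hC m g hg h0

end point

end Pool.Agent.H39.TU
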