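import Pool.Agent.H39.TU.SEC2
import Pool.Agent.H39.TU.PTS
import Pool.Agent.H24.TU.LemS

/-!
# [H39 TU GUU] Theorem U, case B: a section of high order which does not vanish on the curve

From (*1) (`StarOne`) at the point `ptI a z` of transcendence degree at least `2` over `κ`, and a section of order `τ` at the
smooth point `φ` (`exists_section`): the section or one of its first coefficient derivatives does not vanish at `z`; it has
order at least `τ - 1` at `φ`.
-/

set_option autoImplicit false

namespace Pool.Agent.H39.TU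

open scoped TensorProduct
open Pool.Agent.H24.TU

variable {k K κ R : Type} [Field k] [Field K] [Algebra k K] [Field κ] [Algebra k κ] [CommRing R] [Algebra k R]

theorem sub_inj (L : Submodule k K) : Function.Injective (L.subtype.baseChange κ) := by
  have h := Module.Flat.lTensor_preserves_injective_linearMap (M := κ) L.subtype L.subtype_injective
  exact h

theorem sub_dX (L : Submodule k K) (θ : Derivation k κ κ) (g : κ ⊗[k] L) :
    L.subtype.baseChange κ (LinearMap.rTensor L θ.toLinearMap g) =
      dX K θ (L.subtype.baseChange κ g) := by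
  induction g using TensorProduct.induction_on with
  | zero => simp
  | add a b ha hb => simp only [map_add, ha, hb]
  | tmul x f =>
    rw [LinearMap.rTensor_tmul, LinearMap.baseChange_tmul, LinearMap.baseChange_tmul, dX_tmul]
    rfl

theorem j_dR (L : Submodule k K) (j : L →ₗ[k] R) (θ : Derivation k κ κ) (g : κ ⊗[k] L) :
    j.baseChange κ (LinearMap.rTensor L θ.toLinearMap g) = dR R θ (j.baseChange κ g) := by
  induction g using TensorProduct.induction_on with
  | zero => simp
  | add a b ha hb => simp only [map_add, ha, hb]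
  | tmul x f =>
    rw [LinearMap.rTensor_tmul, LinearMap.baseChange_tmul, LinearMap.baseChange_tmul, dR_tmul]
    rfl

theorem exists_u [CharZero k] [Algebra.EssFiniteType k κ] (L : Submodule k K) [Module.Finite k L]
    (j : L →ₗ[k] R) (φ : R →ₐ[k] κ) (c : Fin 3 → R)
    (hc : Submodule.span R (Set.range fun i => KaehlerDifferential.D k R (c i)) = ⊤) (τ : ℕ)
    (hτ : (τ + 2).choose 3 < Module.finrank k L)
    {E : Type} [Field E] [Algebra k E] (a : κ →ₐ[k] E) (z : K →ₐ[k] E)
    (htr : 2 ≤ Algebra.trdeg κ ((κ ⊗[k] K) ⧸ ptI a z)) (hst : StarOne k κ K L) :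
    ∃ u : κ ⊗[k] L, j.baseChange κ u ∈ mp φ ^ (τ - 1) ∧ pt a z (L.subtype.baseChange κ u) ≠ 0 := by
  obtain ⟨G₀, hG0, hGm⟩ := exists_section φ c hc j τ hτ
  have hGne : L.subtype.baseChange κ G₀ ≠ 0 := by
    intro h
    exact hG0 (sub_inj L (by rw [h, map_zero]))
  have hGmem : L.subtype.baseChange κ G₀ ∈ L.baseChange κ := by
    rw [Submodule.baseChange]
    exact ⟨G₀, rfl⟩
  by_cases h0 : pt a z (L.subtype.baseChange κ G₀) = 0
  · have hP : L.subtype.baseChange κ G₀ ∈ ptI a z := mem_ptI.2 h0
    obtain ⟨δ, hδ⟩ := hst _ hGmem hGne (ptI a z) inferInstance htr hP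
    have h1 : ∃ θ : Derivation k κ κ, dX K θ (L.subtype.baseChange κ G₀) ∉ ptI a z := by
      by_contra hcon
      push Not at hcon
      exact hδ (smooth_step inferInstance hP hcon δ)
    obtain ⟨θ, hθ⟩ := h1
    refine ⟨LinearMap.rTensor L θ.toLinearMap G₀, ?_, ?_⟩
    · rw [j_dR]
      rcases Nat.eq_zero_or_pos τ with h2 | h2
      · subst h2
        simp
      · obtain ⟨m, rfl⟩ : ∃ m, τ = m + 1 := ⟨τ - 1, by omega⟩
        exact dR_pow θ (mp φ) m _ hGm
    · rw [sub_dX]
      intro h3
      exact hθ (mem_ptI.2 h3)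
  · exact ⟨G₀, Ideal.pow_le_pow_right (by omega) hGm, h0⟩

end Pool.Agent.H39.TU
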