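import Pool.Agent.H39.TU.THII
import Pool.Agent.H24.TU.Main
import Pool.Agent.H20.TU.ST1
import Pool.Agent.H41.TU.ClB

/-!
# [H39 TU Mai] Theorem U: Theorems I and II together
-/

set_option autoImplicit false

namespace Pool.Agent.H39.TU

open Pool.Agent.H54.RV Pool.Agent.H83.TU Pool.Agent.H24.TU Pool.Agent.H20.TU Pool.Agent.H41.TU

variable {k K : Type} [Field k] [Field K] [Algebra k K] {X : Mod k K}

theorem exists_e (th : ℝ) (hth : 0 < th) : ∃ e : ℕ, 1 ≤ e ∧ (1 + 3 / (e : ℝ)) ^ 3 < 1 + th := by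
  have h1 : Filter.Tendsto (fun e : ℕ => (1 + 3 / (e : ℝ)) ^ 3) Filter.atTop (nhds ((1 + 0) ^ 3)) :=
    (tendsto_const_nhds.add (tendsto_const_div_atTop_nhds_zero_nat 3)).pow 3
  have h2 : ((1 : ℝ) + 0) ^ 3 < 1 + th := by
    rw [add_zero, one_pow]
    linarith
  obtain ⟨e, he, he'⟩ := ((h1.eventually (gt_mem_nhds h2)).and (Filter.eventually_ge_atTop 1)).exists
  exact ⟨e, he', he⟩

theorem vol_ev (hGF : GF X) (D : Cart X) (w : ℝ) (hw : vol D < w) :
    ∀ᶠ n : ℕ in Filter.atTop, (h0 D n : ℝ) ≤ w * (n : ℝ) ^ 3 := by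
  obtain ⟨C, hC⟩ := hGF.2 D
  have h1 : ∀ᶠ n : ℕ in Filter.atTop, (h0 D n : ℝ) / (n : ℝ) ^ 3 < w := by
    refine Filter.eventually_lt_of_limsup_lt hw ?_
    refine Filter.isBoundedUnder_of_eventually_le (a := (C : ℝ)) ?_
    filter_upwards [Filter.eventually_ge_atTop 1] with n hn
    have hn' : (0 : ℝ) < n := by exact_mod_cast hn
    rw [div_le_iff₀ (by positivity)]
    exact_mod_cast hC n hn
  filter_upwards [h1, Filter.eventually_ge_atTop 1] with n h2 hn
  have hn' : (0 : ℝ) < n := by exact_mod_cast hn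
  rw [div_lt_iff₀ (by positivity)] at h2
  exact h2.le

theorem mai [IsAlgClosed k] [CharZero k] (h : Hyp X) (hGF : GF X) (hUN : UN X) (hUF : UF X)
    (hsm : ∀ x, SmP X x) : Mai X := by
  intro th hth
  obtain ⟨e, he1, he⟩ := exists_e th hth
  refine ⟨max ((2 * e + 5).choose 3) ((28 * e + 1 + 4).choose 3), 28 * e + 1, fun D hD hS hN hv => ?_⟩
  have hN1 : (2 * e + 5).choose 3 < h0 D 1 := (le_max_left _ _).trans_lt hN
  have hN2 : (28 * e + 1 + 4).choose 3 < h0 D 1 := (le_max_right _ _).trans_lt hN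
  have hess : Algebra.EssFiniteType k K := by
    have h1 := K_fg h.var h.gen
    have h2 := IntermediateField.essFiniteType_iff.2 h1
    exact Algebra.EssFiniteType.of_surjective
      (IntermediateField.topEquiv (F := k) (E := K)).toAlgHom
      (IntermediateField.topEquiv (F := k) (E := K)).surjective
  obtain ⟨C₀⟩ := exists_coord (k := k) (K := K) h.tr
  have hst : ∀ (Y : Type) [Field Y] [Algebra k Y], StarOne k Y K (secL D 1) := fun Y _ _ =>
    star_one h.var h.gen h.ufd h.tr C₀ D hS Y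
  let S : GSys k K :=
    { L := secL D
      one_mem := fun y => by
        rw [pow_zero, mul_one]
        exact (X.O y).one_mem
      mul_mem := by
        intro m n f g hf hg y
        have h1 := (X.O y).mul_mem (hf y) (hg y)
        have h2 : f * g * D.eq y ^ (m + n) = f * D.eq y ^ m * (g * D.eq y ^ n) := by
          rw [pow_add]
          ring
        rw [h2]
        exact h1
      fin := hGF.1 D
      ne_bot := by
        intro h1
        have h2 : h0 D 1 = 0 := by
          unfold h0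
          rw [h1]
          exact finrank_bot k K
        omega
      frac := frac_sec h hUF D hD }
  -- a number between the volume and the number of sections
  have hq : (0 : ℝ) < (1 + 3 / (e : ℝ)) ^ 3 := by positivity
  have hvol := vol_nonneg hGF D
  have hlt : vol D < h0 D 1 / (1 + 3 / (e : ℝ)) ^ 3 := by
    rw [lt_div_iff₀ hq]
    calc vol D * (1 + 3 / (e : ℝ)) ^ 3 ≤ vol D * (1 + th) := mul_le_mul_of_nonneg_left he.le hvol
      _ = (1 + th) * vol D := mul_comm _ _
      _ < _ := hv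
  obtain ⟨w, hw1, hw2⟩ := exists_between hlt
  obtain ⟨F, hF, n₀, hγ⟩ := theoremI_nat h.tr S (hst K) he1 w (vol_ev hGF D w hw1) (by
    rw [lt_div_iff₀ hq, mul_comm] at hw2
    exact hw2) hN1.le
  obtain ⟨hR, M, hM, hM', hRM⟩ := theoremII h hGF hUN hUF hsm D hD hst F hF (28 * e + 1) n₀ hγ hN2
  exact ⟨RF h.var h.gen F, rfun_rf h.var h.gen hUF F hF, hR, M, hM, hM', hRM⟩

end Pool.Agent.H39.TU
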