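import Mathlib

/-!
# [H39 TU SEC1] Theorem U, case B: the maximal ideal of a smooth point, modulo its square

`R` is a `k`-algebra, `φ : R →ₐ[k] κ`, `evp φ : κ ⊗ R → κ`, `a ⊗ f ↦ a * φ f`, `mp φ` its kernel (a maximal ideal: the
point `φ` of `Spec R`, over the field `κ`).  `uu φ f = 1 ⊗ f - φ f ⊗ 1 ∈ mp φ`.

* `mp_span`: `mp φ` is the `κ`-span of the `uu φ f`, `f ∈ R`.  Proof: by `TensorProduct.induction_on` every
  `g = ∑ a_j ⊗ f_j` is `∑ a_j • uu φ f_j + (evp φ g) ⊗ 1` (a statement `g - (evp φ g) ⊗ 1 ∈ span`).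
* `mp_diff`: if the differentials `D (c i)`, `i : Fin 3`, span `Ω[R⁄k]` over `R`, then
  `uu φ f ∈ Ideal.span {uu φ (c i)} ⊔ mp φ ^ 2` for all `f`.  Proof: let `N` be this ideal, `M = (κ ⊗ R) ⧸ N`, an
  `R`-module through `φ`: `f • m = (φ f ⊗ 1) * m` (`Module.compHom`; `IsScalarTower k R M`).  `δ f = mk (uu φ f)` is a
  derivation `R → M`: `uu (f g) = (1 ⊗ f) uu g + (φ g ⊗ 1) uu f = (φ f ⊗ 1) uu g + (φ g ⊗ 1) uu f + uu f * uu g` and
  `uu f * uu g ∈ mp φ ^ 2`.  `δ` is the composition of `D` with an `R`-linear map `ℓ : Ω[R⁄k] → M`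
  (`Derivation.liftKaehlerDifferential`), `ℓ (D (c i)) = δ (c i) = 0`, so `ℓ = 0` and `δ = 0`.
* `mp_lin`: so `mp φ ⊆ span_κ {uu φ (c i)} + mp φ ^ 2` (as `κ`-subspaces).  Proof: `κ ⊗ R = κ ⊗ 1 + mp φ`, so
  `Ideal.span {uu (c i)} ⊆ span_κ {uu (c i)} + mp φ ^ 2`; `mp_span`, `mp_diff`.
-/

set_option autoImplicit false

namespace Pool.Agent.H39.TU

open scoped TensorProduct

variable {k κ R : Type} [Field k] [Field κ] [CommRing R] [Algebra k κ] [Algebra k R]

/-- evaluation at the point `φ` -/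
noncomputable def evp (φ : R →ₐ[k] κ) : κ ⊗[k] R →ₐ[κ] κ :=
  Algebra.TensorProduct.lift (AlgHom.id κ κ) φ (fun _ _ => Commute.all _ _)

theorem evp_tmul (φ : R →ₐ[k] κ) (a : κ) (f : R) : evp φ (a ⊗ₜ[k] f) = a * φ f := by
  simp [evp]

/-- the ideal of the point -/
noncomputable def mp (φ : R →ₐ[k] κ) : Ideal (κ ⊗[k] R) := RingHom.ker (evp φ)

/-- the basic elements of the ideal of the point -/
noncomputable def uu (φ : R →ₐ[k] κ) (f : R) : κ ⊗[k] R := 1 ⊗ₜ[k] f - φ f ⊗ₜ[k] 1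

theorem uu_mem (φ : R →ₐ[k] κ) (f : R) : uu φ f ∈ mp φ := by
  rw [mp, RingHom.mem_ker, uu, map_sub, evp_tmul, evp_tmul]
  simp

private theorem sec1_sub (φ : R →ₐ[k] κ) (g : κ ⊗[k] R) :
    g - (evp φ g) ⊗ₜ[k] (1 : R) ∈ Submodule.span κ (Set.range (uu φ)) := by
  induction g using TensorProduct.induction_on with
  | zero =>
    rw [map_zero, TensorProduct.zero_tmul, sub_zero]
    exact Submodule.zero_mem _
  | tmul a f =>
    have h1 : a ⊗ₜ[k] f - (evp φ (a ⊗ₜ[k] f)) ⊗ₜ[k] (1 : R) = a • uu φ f := by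
      rw [evp_tmul, uu, smul_sub, TensorProduct.smul_tmul', TensorProduct.smul_tmul',
        smul_eq_mul, smul_eq_mul, mul_one]
    rw [h1]
    exact Submodule.smul_mem _ _ (Submodule.subset_span ⟨f, rfl⟩)
  | add x y hx hy =>
    have h1 : x + y - (evp φ (x + y)) ⊗ₜ[k] (1 : R) =
        (x - (evp φ x) ⊗ₜ[k] (1 : R)) + (y - (evp φ y) ⊗ₜ[k] (1 : R)) := by
      rw [map_add, TensorProduct.add_tmul]
      ring
    rw [h1]
    exact Submodule.add_mem _ hx hy

private theorem sec1_mem (φ : R →ₐ[k] κ) (g : κ ⊗[k] R) :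
    g - (evp φ g) ⊗ₜ[k] (1 : R) ∈ mp φ := by
  rw [mp, RingHom.mem_ker, map_sub, evp_tmul, map_one, mul_one, sub_self]

theorem mp_span (φ : R →ₐ[k] κ) :
    (mp φ).restrictScalars κ = Submodule.span κ (Set.range (uu φ)) := by
  refine le_antisymm ?_ ?_
  · intro g hg
    have h1 : evp φ g = 0 := hg
    have h2 := sec1_sub φ g
    rw [h1, TensorProduct.zero_tmul, sub_zero] at h2
    exact h2
  · rw [Submodule.span_le]
    rintro _ ⟨f, rfl⟩
    exact uu_mem φ f

theorem mp_diff (φ : R →ₐ[k] κ) (c : Fin 3 → R)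
    (hc : Submodule.span R (Set.range fun i => KaehlerDifferential.D k R (c i)) = ⊤) (f : R) :
    uu φ f ∈ Ideal.span (Set.range fun i => uu φ (c i)) ⊔ mp φ ^ 2 := by
  set N : Ideal (κ ⊗[k] R) := Ideal.span (Set.range fun i => uu φ (c i)) ⊔ mp φ ^ 2 with hN
  let _ : Module R ((κ ⊗[k] R) ⧸ N) := Module.compHom ((κ ⊗[k] R) ⧸ N) (φ : R →+* κ)
  have hsm : ∀ (r : R) (m : (κ ⊗[k] R) ⧸ N), r • m = φ r • m := fun _ _ => rfl
  have : IsScalarTower k R ((κ ⊗[k] R) ⧸ N) := ⟨fun x y z => by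
    rw [hsm, hsm, map_smul, smul_assoc]⟩
  let δ0 : R →ₗ[k] ((κ ⊗[k] R) ⧸ N) :=
    { toFun := fun f => Ideal.Quotient.mk N (uu φ f)
      map_add' := fun f g => by
        rw [← map_add]
        congr 1
        rw [uu, uu, uu, map_add, TensorProduct.tmul_add, TensorProduct.add_tmul]
        ring
      map_smul' := fun x f => by
        have h1 : uu φ (x • f) = x • uu φ f := by
          rw [uu, uu, map_smul, smul_sub, TensorProduct.tmul_smul, ← TensorProduct.smul_tmul']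
        rw [h1]
        rfl }
  have hδ0 : ∀ f, δ0 f = Ideal.Quotient.mk N (uu φ f) := fun _ => rfl
  let δ : Derivation k R ((κ ⊗[k] R) ⧸ N) := Derivation.mk' δ0 (by
    intro f g
    rw [hδ0, hδ0, hδ0, hsm, hsm]
    have h1 : ∀ (a : κ) (w : κ ⊗[k] R), a • Ideal.Quotient.mk N w =
        Ideal.Quotient.mk N (a ⊗ₜ[k] (1 : R) * w) := by
      intro a w
      have h2 : a ⊗ₜ[k] (1 : R) * w = a • w := by
        have h3 : a ⊗ₜ[k] (1 : R) = a • (1 : κ ⊗[k] R) := by
          rw [Algebra.TensorProduct.one_def, TensorProduct.smul_tmul', smul_eq_mul, mul_one]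
        rw [h3, smul_mul_assoc, one_mul]
      rw [h2]
      rfl
    rw [h1, h1, ← map_add, Ideal.Quotient.eq]
    refine Ideal.mem_sup_right ?_
    have h4 : uu φ (f * g) - (φ f ⊗ₜ[k] (1 : R) * uu φ g + φ g ⊗ₜ[k] (1 : R) * uu φ f) =
        uu φ f * uu φ g := by
      have h5 : ∀ r, (1 : κ) ⊗ₜ[k] r = uu φ r + φ r ⊗ₜ[k] (1 : R) := by
        intro r
        rw [uu, sub_add_cancel]
      have h6 : uu φ (f * g) = ((1 : κ) ⊗ₜ[k] f) * ((1 : κ) ⊗ₜ[k] g) -
          (φ f ⊗ₜ[k] (1 : R)) * (φ g ⊗ₜ[k] (1 : R)) := by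
        rw [uu, Algebra.TensorProduct.tmul_mul_tmul, Algebra.TensorProduct.tmul_mul_tmul,
          mul_one, mul_one, map_mul]
      rw [h6, h5 f, h5 g]
      ring
    rw [h4, pow_two]
    exact Ideal.mul_mem_mul (uu_mem φ f) (uu_mem φ g))
  have hδ : ∀ f, δ f = Ideal.Quotient.mk N (uu φ f) := fun _ => rfl
  have hl : δ.liftKaehlerDifferential = 0 := by
    refine LinearMap.ext_on_range (v := fun i => KaehlerDifferential.D k R (c i)) hc ?_
    intro i
    rw [Derivation.liftKaehlerDifferential_comp_D, hδ, LinearMap.zero_apply,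
      Ideal.Quotient.eq_zero_iff_mem]
    exact Ideal.mem_sup_left (Ideal.subset_span ⟨i, rfl⟩)
  have h7 : δ f = 0 := by
    rw [← Derivation.liftKaehlerDifferential_comp_D δ f, hl, LinearMap.zero_apply]
  rw [hδ, Ideal.Quotient.eq_zero_iff_mem] at h7
  exact h7

theorem mp_lin (φ : R →ₐ[k] κ) (c : Fin 3 → R)
    (hc : Submodule.span R (Set.range fun i => KaehlerDifferential.D k R (c i)) = ⊤) :
    (mp φ).restrictScalars κ ≤
      Submodule.span κ (Set.range fun i => uu φ (c i)) ⊔ (mp φ ^ 2).restrictScalars κ := by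
  have hA : Submodule.span κ (Set.range fun i => uu φ (c i)) ⊔ (mp φ ^ 2).restrictScalars κ ≤
      (mp φ).restrictScalars κ := by
    refine sup_le ?_ ?_
    · rw [Submodule.span_le]
      rintro _ ⟨i, rfl⟩
      exact uu_mem φ (c i)
    · intro w hw
      exact Ideal.pow_le_self two_ne_zero hw
  have hs : ∀ h ∈ Ideal.span (Set.range fun i => uu φ (c i)),
      h ∈ Submodule.span κ (Set.range fun i => uu φ (c i)) ⊔ (mp φ ^ 2).restrictScalars κ := by
    intro h hh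
    induction hh using Submodule.span_induction with
    | mem x hx => exact Submodule.mem_sup_left (Submodule.subset_span hx)
    | zero => exact Submodule.zero_mem _
    | add x y _ _ hx hy => exact Submodule.add_mem _ hx hy
    | smul b x _ hx =>
      have h1 : b • x = (evp φ b) • x + (b - (evp φ b) ⊗ₜ[k] (1 : R)) * x := by
        have h3 : (evp φ b) ⊗ₜ[k] (1 : R) = (evp φ b) • (1 : κ ⊗[k] R) := by
          rw [Algebra.TensorProduct.one_def, TensorProduct.smul_tmul', smul_eq_mul, mul_one]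
        rw [h3, sub_mul, smul_mul_assoc, one_mul, smul_eq_mul, add_sub_cancel]
      rw [h1]
      refine Submodule.add_mem _ (Submodule.smul_mem _ _ hx) (Submodule.mem_sup_right ?_)
      rw [Submodule.restrictScalars_mem, pow_two]
      exact Ideal.mul_mem_mul (sec1_mem φ b) (hA hx)
  rw [mp_span, Submodule.span_le]
  rintro _ ⟨f, rfl⟩
  obtain ⟨h, hh, w, hw, hhw⟩ := Submodule.mem_sup.1 (mp_diff φ c hc f)
  rw [SetLike.mem_coe, ← hhw]
  exact Submodule.add_mem _ (hs h hh) (Submodule.mem_sup_right hw)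

end Pool.Agent.H39.TU
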