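import Pool.Agent.H39.TU.SEC1

/-!
# [H39 TU SEC2] Theorem U, case B: sections which vanish to high order at a smooth point

* `pow_lin`: `mp φ ^ j ⊆ span_κ {monomials of degree j in the uu φ (c i)} + mp φ ^ (j + 1)`.  Induction on `j`:
  `j = 0`: `g - evp φ g • 1 ∈ mp φ`.  Step: `mp φ ^ (j + 1)` is generated by products `a * b`, `a ∈ mp φ ^ j`, `b ∈ mp φ`;
  `a = a' + a''`, `b = b' + b''` with `a'` in the span of the monomials of degree `j`, `a'' ∈ mp φ ^ (j + 1)`,
  `b' ∈ span {uu (c i)}`, `b'' ∈ mp φ ^ 2` (`mp_lin`): `a b - a' b' ∈ mp φ ^ (j + 2)`.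
* `all_lin`: `⊤ = span_κ {monomials of degree < τ} + mp φ ^ τ` (induction on `τ`).
* `mono_card`: there are at most `(τ + 2).choose 3` monomials of degree `< τ` in three variables: the index set
  `{a : Fin 3 → ℕ | ∑ a < τ}` has `(τ + 2).choose 3` elements (`Finset.Nat.antidiagonalTuple`,
  `Finset.Nat.card_antidiagonalTuple` or by induction on `τ`: `(n + 2).choose 2` of degree `n`).
* `exists_section`: `L` finite dimensional, `j : L → R` `k`-linear, `(τ + 2).choose 3 < dim L`.  The `κ`-linear map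
  `κ ⊗ L → (κ ⊗ R) ⧸ mp φ ^ τ` goes from dimension `dim L` (`Module.finrank_baseChange`) to a space which is spanned by
  at most `(τ + 2).choose 3` elements (`all_lin`), so it has a nonzero kernel.
-/

set_option autoImplicit false

namespace Pool.Agent.H39.TU

open scoped TensorProduct

variable {k κ R : Type} [Field k] [Field κ] [CommRing R] [Algebra k κ] [Algebra k R]

/-- a monomial in the elements `uu φ (c i)` -/
noncomputable def mono (φ : R →ₐ[k] κ) (c : Fin 3 → R) (a : Fin 3 → ℕ) : κ ⊗[k] R :=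
  ∏ i, uu φ (c i) ^ a i

theorem sec2_mul_mem (φ : R →ₐ[k] κ) (c : Fin 3 → R) (j : ℕ) {x y : κ ⊗[k] R}
    (hx : x ∈ Submodule.span κ (mono φ c '' {a | ∑ i, a i = j}))
    (hy : y ∈ Submodule.span κ (Set.range fun i => uu φ (c i))) :
    x * y ∈ Submodule.span κ (mono φ c '' {a | ∑ i, a i = j + 1}) := by
  have h1 : x * y ∈ Submodule.span κ (mono φ c '' {a | ∑ i, a i = j}) *
      Submodule.span κ (Set.range fun i => uu φ (c i)) := Submodule.mul_mem_mul hx hy
  rw [Submodule.span_mul_span] at h1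
  refine Submodule.span_mono ?_ h1
  rintro z ⟨u, ⟨a, ha, rfl⟩, v, ⟨i, rfl⟩, rfl⟩
  refine ⟨(a + Pi.single i 1 : Fin 3 → ℕ), ?_, ?_⟩
  · show ∑ l, (a + Pi.single i 1 : Fin 3 → ℕ) l = j + 1
    have h2 : ∑ l, (a + Pi.single i 1 : Fin 3 → ℕ) l = ∑ l, a l + ∑ l, (Pi.single i 1 : Fin 3 → ℕ) l := by
      rw [← Finset.sum_add_distrib]
      rfl
    rw [h2, Finset.sum_pi_single']
    have h3 : ∑ l, a l = j := ha
    rw [h3]
    simp
  · unfold mono
    have h2 : ∀ l, uu φ (c l) ^ (a + Pi.single i 1 : Fin 3 → ℕ) l =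
        uu φ (c l) ^ a l * uu φ (c l) ^ (Pi.single i 1 : Fin 3 → ℕ) l := fun l => by
      rw [Pi.add_apply, pow_add]
    rw [Finset.prod_congr rfl fun l _ => h2 l, Finset.prod_mul_distrib]
    congr 1
    rw [Finset.prod_eq_single i]
    · simp
    · intro l _ hl
      rw [Pi.single_eq_of_ne hl, pow_zero]
    · intro h
      exact absurd (Finset.mem_univ i) h

theorem sec2_choose (n : ℕ) : ∑ i ∈ Finset.range (n + 1), (n - i + 1) = (n + 2).choose 2 := by
  have h1 := Finset.sum_range_reflect (fun i => i + 1) (n + 1)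
  have h2 : ∀ m : ℕ, ∑ i ∈ Finset.range (m + 1), (i + 1) = (m + 2).choose 2 := by
    intro m
    induction m with
    | zero => simp
    | succ m ih =>
      rw [Finset.sum_range_succ, ih, Nat.choose_succ_succ' (m + 2) 1, Nat.choose_one_right]
      ring
  rw [← h2 n, ← h1]
  refine Finset.sum_congr rfl fun i _ => ?_
  simp

theorem sec2_exact (n : ℕ) : ∃ s : Finset (Fin 3 → ℕ), (∀ a : Fin 3 → ℕ, ∑ i, a i = n → a ∈ s) ∧
    s.card ≤ (n + 2).choose 2 := by
  classical
  refine ⟨(Finset.range (n + 1)).biUnion fun i =>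
    (Finset.HasAntidiagonal.antidiagonal (n - i)).image fun p => ![i, p.1, p.2], fun a ha => ?_, ?_⟩
  · rw [Fin.sum_univ_three] at ha
    rw [Finset.mem_biUnion]
    refine ⟨a 0, Finset.mem_range.2 (by omega), Finset.mem_image.2 ⟨(a 1, a 2), ?_, ?_⟩⟩
    · rw [Finset.HasAntidiagonal.mem_antidiagonal]
      show a 1 + a 2 = n - a 0
      omega
    · funext l
      fin_cases l <;> rfl
  · refine Finset.card_biUnion_le.trans ?_
    rw [← sec2_choose n]
    refine Finset.sum_le_sum fun i _ => Finset.card_image_le.trans ?_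
    rw [Finset.Nat.card_antidiagonal]

theorem pow_lin (φ : R →ₐ[k] κ) (c : Fin 3 → R)
    (hc : Submodule.span R (Set.range fun i => KaehlerDifferential.D k R (c i)) = ⊤) (j : ℕ) :
    (mp φ ^ j).restrictScalars κ ≤
      Submodule.span κ (mono φ c '' {a | ∑ i, a i = j}) ⊔ (mp φ ^ (j + 1)).restrictScalars κ := by
  induction j with
  | zero =>
    intro g _
    rw [Submodule.mem_sup]
    refine ⟨(evp φ g) • 1, ?_, g - (evp φ g) • 1, ?_, by ring⟩
    · refine Submodule.smul_mem _ _ (Submodule.subset_span ⟨0, ?_, ?_⟩)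
      · simp
      · unfold mono
        simp
    · rw [Submodule.restrictScalars_mem, zero_add, pow_one, mp, RingHom.mem_ker]
      show evp φ (g - (evp φ g) • 1) = 0
      rw [map_sub, map_smul, map_one, smul_eq_mul, mul_one, sub_self]
  | succ j ih =>
    intro x hx
    rw [Submodule.restrictScalars_mem, pow_succ] at hx
    refine Submodule.mul_induction_on hx ?_ ?_
    · intro a ha b hb
      obtain ⟨a1, ha1, a2, ha2, rfl⟩ := Submodule.mem_sup.1 (ih ha)
      obtain ⟨b1, hb1, b2, hb2, rfl⟩ := Submodule.mem_sup.1 (mp_lin φ c hc hb)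
      rw [Submodule.restrictScalars_mem] at ha2 hb2
      have ha3 : a1 ∈ mp φ ^ j := by
        have h1 := (mp φ ^ j).sub_mem ha (Ideal.pow_le_pow_right (Nat.le_succ j) ha2)
        rwa [add_sub_cancel_right] at h1
      refine Submodule.mem_sup.2 ⟨a1 * b1, sec2_mul_mem φ c j ha1 hb1, a1 * b2 + a2 * (b1 + b2),
        ?_, by ring⟩
      rw [Submodule.restrictScalars_mem]
      refine Ideal.add_mem _ ?_ ?_
      · have h1 := Ideal.mul_mem_mul ha3 hb2
        rwa [← pow_add] at h1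
      · have h1 := Ideal.mul_mem_mul ha2 hb
        rwa [← pow_succ] at h1
    · intro a b ha hb
      exact Submodule.add_mem _ ha hb

theorem all_lin (φ : R →ₐ[k] κ) (c : Fin 3 → R)
    (hc : Submodule.span R (Set.range fun i => KaehlerDifferential.D k R (c i)) = ⊤) (τ : ℕ) :
    (⊤ : Submodule κ (κ ⊗[k] R)) =
      Submodule.span κ (mono φ c '' {a | ∑ i, a i < τ}) ⊔ (mp φ ^ τ).restrictScalars κ := by
  induction τ with
  | zero =>
    rw [pow_zero, Ideal.one_eq_top, Submodule.restrictScalars_top, sup_top_eq]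
  | succ τ ih =>
    rw [eq_comm, eq_top_iff, ih]
    refine sup_le ?_ ?_
    · refine (Submodule.span_mono (Set.image_mono fun a ha => ?_)).trans le_sup_left
      exact Nat.lt_succ_of_lt ha
    · refine (pow_lin φ c hc τ).trans (sup_le ?_ le_sup_right)
      refine (Submodule.span_mono (Set.image_mono fun a ha => ?_)).trans le_sup_left
      have h1 : ∑ i, a i = τ := ha
      show ∑ i, a i < τ + 1
      omega

theorem mono_card (τ : ℕ) : ∃ s : Finset (Fin 3 → ℕ), (∀ a : Fin 3 → ℕ, ∑ i, a i < τ → a ∈ s) ∧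
    s.card ≤ (τ + 2).choose 3 := by
  classical
  induction τ with
  | zero => exact ⟨∅, fun a ha => absurd ha (Nat.not_lt_zero _), by simp⟩
  | succ τ ih =>
    obtain ⟨s, hs, hs'⟩ := ih
    obtain ⟨e, he, he'⟩ := sec2_exact τ
    refine ⟨s ∪ e, fun a ha => ?_, ?_⟩
    · rw [Finset.mem_union]
      rcases Nat.lt_succ_iff_lt_or_eq.1 ha with h | h
      · exact Or.inl (hs a h)
      · exact Or.inr (he a h)
    · refine (Finset.card_union_le _ _).trans ?_
      have h : (τ + 1 + 2).choose 3 = (τ + 2).choose 2 + (τ + 2).choose 3 :=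
        Nat.choose_succ_succ' (τ + 2) 2
      omega

theorem exists_section (φ : R →ₐ[k] κ) (c : Fin 3 → R)
    (hc : Submodule.span R (Set.range fun i => KaehlerDifferential.D k R (c i)) = ⊤)
    {L : Type} [AddCommGroup L] [Module k L] [Module.Finite k L] (j : L →ₗ[k] R) (τ : ℕ)
    (h : (τ + 2).choose 3 < Module.finrank k L) :
    ∃ G : κ ⊗[k] L, G ≠ 0 ∧ j.baseChange κ G ∈ mp φ ^ τ := by
  classical
  obtain ⟨s, hs, hs'⟩ := mono_card τ
  obtain ⟨W, hW⟩ : ∃ W : Submodule κ (κ ⊗[k] R), W = (mp φ ^ τ).restrictScalars κ := ⟨_, rfl⟩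
  have htop : (⊤ : Submodule κ ((κ ⊗[k] R) ⧸ W)) =
      Submodule.span κ (((s.image (mono φ c)).image W.mkQ : Finset ((κ ⊗[k] R) ⧸ W)) :
        Set ((κ ⊗[k] R) ⧸ W)) := by
    rw [eq_comm, eq_top_iff, ← Submodule.range_mkQ W, LinearMap.range_eq_map,
      all_lin φ c hc τ, ← hW, Submodule.map_sup, Submodule.map_span]
    refine sup_le (Submodule.span_mono ?_) ?_
    · rintro _ ⟨_, ⟨a, ha, rfl⟩, rfl⟩
      rw [Finset.mem_coe, Finset.mem_image]
      exact ⟨mono φ c a, Finset.mem_image.2 ⟨a, hs a ha, rfl⟩, rfl⟩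
    · rw [Submodule.mkQ_map_self]
      exact bot_le
  have hfin : Module.Finite κ ((κ ⊗[k] R) ⧸ W) := ⟨⟨_, htop.symm⟩⟩
  have hrk : Module.finrank κ ((κ ⊗[k] R) ⧸ W) ≤ (τ + 2).choose 3 := by
    rw [← finrank_top κ ((κ ⊗[k] R) ⧸ W), htop]
    refine (finrank_span_finset_le_card _).trans ?_
    exact Finset.card_image_le.trans (Finset.card_image_le.trans hs')
  have hlt : Module.finrank κ ((κ ⊗[k] R) ⧸ W) < Module.finrank κ (κ ⊗[k] L) := by
    rw [Module.finrank_baseChange]
    omega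
  have hker := LinearMap.ker_ne_bot_of_finrank_lt (f := W.mkQ ∘ₗ j.baseChange κ) hlt
  obtain ⟨G, hG, hG0⟩ := Submodule.exists_mem_ne_zero_of_ne_bot hker
  refine ⟨G, hG0, ?_⟩
  rw [LinearMap.mem_ker, LinearMap.comp_apply, Submodule.mkQ_apply,
    Submodule.Quotient.mk_eq_zero, hW, Submodule.restrictScalars_mem] at hG
  exact hG

end Pool.Agent.H39.TU
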